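import Mathlib

set_option autoImplicit false

open NumberField IsDedekindDomain

namespace Pool.Agent.Lib.MP_4d5ce1_nt

/-- The sum over the primes `v` outside `S` and over `l` of the local heights of `x` relative to
the point `α l`, truncated at level `m`: `min (λ_v(α l, x), m · log N(v) / [K : ℚ])`. -/
noncomputable def truncm {K : Type*} [Field K] [NumberField K] {q : ℕ} (m : ℕ)
    (S : Set (HeightOneSpectrum (𝓞 K))) (α : Fin q → K × K) (x : K × K) : ℝ :=
  ∑ᶠ (v : HeightOneSpectrum (𝓞 K)) (_ : v ∉ S), ∑ l : Fin q,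
    min (Real.log (max (FinitePlace.mk v x.1) (FinitePlace.mk v x.2) *
          max (FinitePlace.mk v (α l).1) (FinitePlace.mk v (α l).2) /
          FinitePlace.mk v (x.1 * (α l).2 - x.2 * (α l).1)) /
        (Module.finrank ℚ K : ℝ))
      ((m : ℝ) * (Real.log (Ideal.absNorm v.asIdeal : ℝ) / (Module.finrank ℚ K : ℝ)))

end Pool.Agent.Lib.MP_4d5ce1_nt
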