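import Pool.Agent.Lib.MP_4d5ce1_nt.Combi
import Pool.Agent.Lib.MP_4d5ce1_nt.Count
import Pool.Agent.Lib.MP_4d5ce1_nt.Lv.Defs
import Pool.Agent.Lib.MP_4d5ce1_nt.LB.Point

section

set_option autoImplicit false

namespace Pool.Agent.Lib.MP_4d5ce1_nt

section aux

variable {ι : Type*} {q : ℕ}

lemma sel_sum_or (P : Finset ι) (lab : ι → Fin q) (g : ι → ℝ) [DecidableEq ι]
    {i j : Fin q} (hij : i ≠ j) :
    ∑ v ∈ P.filter (fun v => lab v = i ∨ lab v = j), g v =
      ∑ v ∈ P.filter (fun v => lab v = i), g v + ∑ v ∈ P.filter (fun v => lab v = j), g v := by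
  rw [Finset.filter_or, Finset.sum_union]
  rw [Finset.disjoint_filter]
  intro v _ h1 h2
  exact hij (h1.symm.trans h2)

lemma sel_sum_univ (I : Fin q → ℝ) {i j : Fin q} (hij : i ≠ j) :
    ∑ l, I l = I i + I j + ∑ l ∈ Finset.univ.filter (fun l => l ≠ i ∧ l ≠ j), I l := by
  rw [← Finset.sum_filter_add_sum_filter_not Finset.univ (fun l => l ≠ i ∧ l ≠ j) I]
  rw [add_comm]
  congr 1
  have : Finset.univ.filter (fun l => ¬ (l ≠ i ∧ l ≠ j)) = {i, j} := by
    ext l
    simp only [Finset.mem_filter, Finset.mem_univ, true_and, Finset.mem_insert,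
      Finset.mem_singleton]
    tauto
  rw [this, Finset.sum_pair hij]

/-- The level one tool. -/
lemma sel_good (P : Finset ι) (lab : ι → Fin q) (e : ι → ℕ) (b : ι → ℝ) (I : Fin q → ℝ)
    (H K : ℝ) (hM : ∀ l, ∑ v ∈ P.filter (fun v => lab v = l), (e v : ℝ) * b v + I l ≤ H + K)
    {i j : Fin q} (hij : i ≠ j) (W : Finset ι) (hW : W ⊆ P) (N : ℕ) (hN : 1 ≤ N) (c : ℝ)
    (h1 : ∑ v ∈ W, b v ≤ c)
    (h2 : 2 * H + 2 * K - ∑ l, I l - ∑ v ∈ W, ((e v : ℝ) - 1) * b v ≤ c) :
    HasTool P lab e b I N c := by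
  classical
  refine ⟨1, le_refl 1, hN, i, j, hij, W, hW, fun _ _ _ _ => one_dvd _, ?_⟩
  unfold toolCost
  set g : ι → ℝ := fun v => (e v : ℝ) * b v with hg
  have hsplitP := sel_sum_or P lab g hij
  have hPW : ∑ v ∈ P.filter (fun v => lab v = i ∨ lab v = j), g v =
      ∑ v ∈ P.filter (fun v => v ∉ W ∧ (lab v = i ∨ lab v = j)), g v +
      ∑ v ∈ W.filter (fun v => lab v = i ∨ lab v = j), g v := by
    rw [← Finset.sum_filter_add_sum_filter_not (P.filter (fun v => lab v = i ∨ lab v = j))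
      (fun v => v ∉ W) g]
    congr 1
    · apply Finset.sum_congr _ (fun _ _ => rfl)
      ext v
      simp only [Finset.mem_filter]
      tauto
    · apply Finset.sum_congr _ (fun _ _ => rfl)
      ext v
      simp only [Finset.mem_filter, not_not]
      constructor
      · rintro ⟨⟨_, h⟩, h'⟩; exact ⟨h', h⟩
      · rintro ⟨h', h⟩; exact ⟨⟨hW h', h⟩, h'⟩
  have hWs : ∑ v ∈ W, g v = ∑ v ∈ W.filter (fun v => lab v = i ∨ lab v = j), g v +
      ∑ v ∈ W.filter (fun v => lab v ≠ i ∧ lab v ≠ j), g v := by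
    rw [← Finset.sum_filter_add_sum_filter_not W (fun v => lab v = i ∨ lab v = j) g]
    congr 1
    apply Finset.sum_congr _ (fun _ _ => rfl)
    ext v
    simp only [Finset.mem_filter]
    tauto
  have hIs := sel_sum_univ I hij
  have hd : ∑ v ∈ W, ((e v : ℝ) - 1) * b v = ∑ v ∈ W, g v - ∑ v ∈ W, b v := by
    rw [← Finset.sum_sub_distrib]
    apply Finset.sum_congr rfl
    intro v _
    simp only [hg]; ring
  have hMi := hM i
  have hMj := hM j
  rw [hd] at h2
  have key : (∑ v ∈ P.filter (fun v => v ∉ W ∧ (lab v = i ∨ lab v = j)), g v) / ((1 : ℕ) : ℝ)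
      - ∑ v ∈ W.filter (fun v => lab v ≠ i ∧ lab v ≠ j), g v
      - ∑ l ∈ Finset.univ.filter (fun l => l ≠ i ∧ l ≠ j), I l ≤
      2 * H + 2 * K - ∑ l, I l - ∑ v ∈ W, g v := by
    rw [Nat.cast_one, div_one]
    linarith only [hsplitP, hPW, hWs, hIs, hMi, hMj]
  rcases le_total ((∑ v ∈ P.filter (fun v => v ∉ W ∧ (lab v = i ∨ lab v = j)), g v) / ((1 : ℕ) : ℝ)
      - ∑ v ∈ W.filter (fun v => lab v ≠ i ∧ lab v ≠ j), g v
      - ∑ l ∈ Finset.univ.filter (fun l => l ≠ i ∧ l ≠ j), I l) 0 with h0 | h0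
  · rw [max_eq_left h0]; linarith only [h1]
  · rw [max_eq_right h0]; linarith only [key, h2]

/-- The level two tool. -/
lemma sel_good_two (P : Finset ι) (lab : ι → Fin q) (e : ι → ℕ) (b : ι → ℝ) (I : Fin q → ℝ)
    (H K : ℝ) (hM : ∀ l, ∑ v ∈ P.filter (fun v => lab v = l), (e v : ℝ) * b v + I l ≤ H + K)
    (he : ∀ v ∈ P, 1 ≤ e v ∧ 0 < b v)
    {p₁ p₂ p₃ : ι} (hp₁ : p₁ ∈ P) (hp₂ : p₂ ∈ P) (hp₃ : p₃ ∈ P)
    (h12 : lab p₁ ≠ lab p₂) (h13 : lab p₁ ≠ lab p₃) (h23 : lab p₂ ≠ lab p₃)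
    (he₁ : e p₁ = 2) (he₂ : e p₂ = 2) (he₃ : e p₃ = 2) (N : ℕ) (hN : 2 ≤ N) (c : ℝ)
    (h1 : 2 * H + 2 * K - I (lab p₁) - I (lab p₂) + b p₃ - 2 * (b p₁ + b p₂) ≤ c)
    (h2 : 2 * H + 2 * K - ∑ l, I l - (b p₁ + b p₂ + b p₃) ≤ c) :
    HasTool P lab e b I N c := by
  classical
  set g : ι → ℝ := fun v => (e v : ℝ) * b v with hg
  have hne12 : p₁ ≠ p₂ := fun h => h12 (by rw [h])
  have hne13 : p₁ ≠ p₃ := fun h => h13 (by rw [h])
  have hne23 : p₂ ≠ p₃ := fun h => h23 (by rw [h])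
  set W : Finset ι := insert p₃ ((P.filter (fun v => lab v = lab p₁ ∨ lab v = lab p₂)).filter
    (fun v => v ≠ p₁ ∧ v ≠ p₂)) with hWdef
  have hp₃W : p₃ ∉ ((P.filter (fun v => lab v = lab p₁ ∨ lab v = lab p₂)).filter
    (fun v => v ≠ p₁ ∧ v ≠ p₂)) := by
    simp only [Finset.mem_filter, not_and]
    rintro ⟨_, h | h⟩
    · exact absurd h.symm h13
    · exact absurd h.symm h23
  have hW : W ⊆ P := by
    intro v hv
    rw [hWdef, Finset.mem_insert] at hv
    rcases hv with rfl | hv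
    · exact hp₃
    · exact (Finset.mem_filter.1 (Finset.mem_filter.1 hv).1).1
  have hleft : P.filter (fun v => v ∉ W ∧ (lab v = lab p₁ ∨ lab v = lab p₂)) = {p₁, p₂} := by
    ext v
    simp only [hWdef, Finset.mem_filter, Finset.mem_insert, Finset.mem_singleton]
    constructor
    · rintro ⟨hv, hnW, hl⟩
      by_contra hcon
      push Not at hcon
      exact hnW (Or.inr ⟨⟨hv, hl⟩, hcon⟩)
    · rintro (rfl | rfl)
      · refine ⟨hp₁, ?_, Or.inl rfl⟩
        rintro (h | ⟨_, h, _⟩)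
        · exact hne13 h
        · exact h rfl
      · refine ⟨hp₂, ?_, Or.inr rfl⟩
        rintro (h | ⟨_, _, h⟩)
        · exact hne23 h
        · exact h rfl
  have hright : W.filter (fun v => lab v ≠ lab p₁ ∧ lab v ≠ lab p₂) = {p₃} := by
    ext v
    simp only [hWdef, Finset.mem_filter, Finset.mem_insert, Finset.mem_singleton]
    constructor
    · rintro ⟨rfl | ⟨⟨_, h⟩, _⟩, h1, h2⟩
      · rfl
      · tauto
    · rintro rfl
      exact ⟨Or.inl rfl, h13.symm, h23.symm⟩
  refine ⟨2, by norm_num, hN, lab p₁, lab p₂, h12, W, hW, ?_, ?_⟩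
  · intro v hv hvW hl
    have : v ∈ P.filter (fun v => v ∉ W ∧ (lab v = lab p₁ ∨ lab v = lab p₂)) := by
      simp only [Finset.mem_filter]; exact ⟨hv, hvW, hl⟩
    rw [hleft] at this
    simp only [Finset.mem_insert, Finset.mem_singleton] at this
    rcases this with rfl | rfl
    · rw [he₁]
    · rw [he₂]
  · unfold toolCost
    have e1 : ∑ v ∈ P.filter (fun v => v ∉ W ∧ (lab v = lab p₁ ∨ lab v = lab p₂)), (e v : ℝ) * b v
        = 2 * b p₁ + 2 * b p₂ := by
      rw [hleft, Finset.sum_pair hne12, he₁, he₂]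
      push_cast; ring
    have e2 : ∑ v ∈ W.filter (fun v => lab v ≠ lab p₁ ∧ lab v ≠ lab p₂), (e v : ℝ) * b v
        = 2 * b p₃ := by
      rw [hright, Finset.sum_singleton, he₃]
      push_cast; ring
    have hIs := sel_sum_univ I h12
    -- the size of `W`
    have hk : ∑ v ∈ W, b v ≤ b p₃ + (2 * H + 2 * K - I (lab p₁) - I (lab p₂)
        - 2 * b p₁ - 2 * b p₂) := by
      rw [hWdef, Finset.sum_insert hp₃W]
      have hsplitP := sel_sum_or P lab g h12
      have h3 : ∑ v ∈ P.filter (fun v => lab v = lab p₁ ∨ lab v = lab p₂), g v =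
          ∑ v ∈ (P.filter (fun v => lab v = lab p₁ ∨ lab v = lab p₂)).filter
            (fun v => v ≠ p₁ ∧ v ≠ p₂), g v + (2 * b p₁ + 2 * b p₂) := by
        rw [← Finset.sum_filter_add_sum_filter_not
          (P.filter (fun v => lab v = lab p₁ ∨ lab v = lab p₂)) (fun v => v ≠ p₁ ∧ v ≠ p₂) g]
        congr 1
        have : (P.filter (fun v => lab v = lab p₁ ∨ lab v = lab p₂)).filter
            (fun v => ¬ (v ≠ p₁ ∧ v ≠ p₂)) = {p₁, p₂} := by
          ext v
          simp only [Finset.mem_filter, Finset.mem_insert, Finset.mem_singleton]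
          constructor
          · rintro ⟨_, h⟩; tauto
          · rintro (rfl | rfl)
            · exact ⟨⟨hp₁, Or.inl rfl⟩, fun h => h.1 rfl⟩
            · exact ⟨⟨hp₂, Or.inr rfl⟩, fun h => h.2 rfl⟩
        rw [this, Finset.sum_pair hne12]
        simp only [hg, he₁, he₂]
        push_cast; ring
      have h4 : ∑ v ∈ (P.filter (fun v => lab v = lab p₁ ∨ lab v = lab p₂)).filter
            (fun v => v ≠ p₁ ∧ v ≠ p₂), b v ≤
          ∑ v ∈ (P.filter (fun v => lab v = lab p₁ ∨ lab v = lab p₂)).filter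
            (fun v => v ≠ p₁ ∧ v ≠ p₂), g v := by
        apply Finset.sum_le_sum
        intro v hv
        have hvP : v ∈ P := (Finset.mem_filter.1 (Finset.mem_filter.1 hv).1).1
        obtain ⟨h5, h6⟩ := he v hvP
        have h7 : (1 : ℝ) ≤ e v := by exact_mod_cast h5
        exact le_mul_of_one_le_left h6.le h7
      have hMi := hM (lab p₁)
      have hMj := hM (lab p₂)
      linarith only [h3, h4, hsplitP, hMi, hMj]
    rw [e1, e2]
    rcases le_total ((2 * b p₁ + 2 * b p₂) / ((2 : ℕ) : ℝ) - 2 * b p₃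
      - ∑ l ∈ Finset.univ.filter (fun l => l ≠ lab p₁ ∧ l ≠ lab p₂), I l) 0 with h0 | h0
    · rw [max_eq_left h0]; linarith only [hk, h1]
    · rw [max_eq_right h0, Nat.cast_ofNat]
      linarith only [hk, h2, hIs]

end aux

theorem selection (q : ℕ) (hq : 2 ≤ q) (D : ℝ) (hD0 : 0 ≤ D) (hD : D ≤ 6 / 7) :
    ∃ C : ℝ, 0 < C ∧ ∀ {ι : Type*} (P : Finset ι) (lab : ι → Fin q) (e : ι → ℕ)
    (b : ι → ℝ) (I : Fin q → ℝ) (H K : ℝ), 0 ≤ H → 0 < K → (∀ v ∈ P, 1 ≤ e v ∧ 0 < b v) →
    (∀ l, 0 ≤ I l) →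
    (∀ l, |∑ v ∈ P.filter (fun v => lab v = l), (e v : ℝ) * b v + I l - H| ≤ K) →
    ∑ v ∈ P, b v ≤ (q - D) * H + K →
    HasTool P lab e b I 2 ((2 - D) * H + C * K) := by
  classical
  refine ⟨q + 10, by positivity, ?_⟩
  intro ι P lab e b I H K hH hK he hI hMabs hS
  set C : ℝ := (q : ℝ) + 10 with hC
  have hq2 : (2 : ℝ) ≤ q := by exact_mod_cast hq
  have hCK : 0 < C * K := by positivity
  have hC12 : 12 * K ≤ C * K := by
    apply mul_le_mul_of_nonneg_right _ hK.le
    linarith only [hq2, hC]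
  have hDH : 0 ≤ D * H := mul_nonneg hD0 hH
  have hDH2 : D * H ≤ 6 / 7 * H := mul_le_mul_of_nonneg_right hD hH
  have hM : ∀ l, ∑ v ∈ P.filter (fun v => lab v = l), (e v : ℝ) * b v + I l ≤ H + K := by
    intro l
    have := (abs_le.1 (hMabs l)).2
    linarith only [this]
  have hM' : ∀ l, H - K ≤ ∑ v ∈ P.filter (fun v => lab v = l), (e v : ℝ) * b v + I l := by
    intro l
    have := (abs_le.1 (hMabs l)).1
    linarith only [this]
  set J : ℝ := ∑ l, I l with hJ
  have hJ0 : 0 ≤ J := Finset.sum_nonneg (fun l _ => hI l)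
  -- two labels
  let i0 : Fin q := ⟨0, by omega⟩
  let j0 : Fin q := ⟨1, by omega⟩
  have hij0 : i0 ≠ j0 := by
    intro h
    have := congrArg Fin.val h
    simp [i0, j0] at this
  set c : ℝ := (2 - D) * H + C * K with hc
  by_contra hno
  have good : ∀ W ⊆ P, ∑ v ∈ W, b v ≤ c →
      2 * H + 2 * K - J - ∑ v ∈ W, ((e v : ℝ) - 1) * b v ≤ c → False := by
    intro W hW h1 h2
    exact hno (sel_good P lab e b I H K hM hij0 W hW 2 (by norm_num) c h1 h2)
  -- the primes with exponent at least two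
  set Q : Finset ι := P.filter (fun v => 2 ≤ e v) with hQ
  have hQP : Q ⊆ P := Finset.filter_subset _ _
  have hdQ : D * H - J - (q + 1) * K ≤ ∑ v ∈ Q, ((e v : ℝ) - 1) * b v := by
    have h1 : ∑ v ∈ Q, ((e v : ℝ) - 1) * b v = ∑ v ∈ P, ((e v : ℝ) - 1) * b v := by
      rw [hQ]
      apply Finset.sum_subset (Finset.filter_subset _ _)
      intro v hv hv'
      have h2 : e v = 1 := by
        have h3 := (he v hv).1
        simp only [Finset.mem_filter, not_and, not_le] at hv'
        have := hv' hv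
        omega
      rw [h2]; simp
    have h2 : ∑ v ∈ P, (e v : ℝ) * b v =
        ∑ l, ∑ v ∈ P.filter (fun v => lab v = l), (e v : ℝ) * b v := by
      rw [Finset.sum_fiberwise]
    have h3 : (q : ℝ) * (H - K) ≤ ∑ l, (∑ v ∈ P.filter (fun v => lab v = l), (e v : ℝ) * b v
        + I l) := by
      calc (q : ℝ) * (H - K) = ∑ _l : Fin q, (H - K) := by
            rw [Finset.sum_const, Finset.card_univ, Fintype.card_fin, nsmul_eq_mul]
        _ ≤ _ := Finset.sum_le_sum (fun l _ => hM' l)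
    rw [Finset.sum_add_distrib, ← h2] at h3
    have h4 : ∑ v ∈ P, ((e v : ℝ) - 1) * b v = ∑ v ∈ P, (e v : ℝ) * b v - ∑ v ∈ P, b v := by
      rw [← Finset.sum_sub_distrib]
      apply Finset.sum_congr rfl
      intro v _; ring
    rw [h1, h4]
    rw [← hJ] at h3
    linarith only [h3, hS]
  have hCK' : C * K = q * K + 10 * K := by rw [hC]; ring
  have hkQ : c < ∑ v ∈ Q, b v := by
    by_contra hcon
    push Not at hcon
    apply good Q hQP hcon
    rw [hc]
    linarith only [hdQ, hCK', hK]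
  have hD' : 0 < D * H - J := by
    by_contra hcon
    push Not at hcon
    apply good ∅ (Finset.empty_subset _)
    · rw [Finset.sum_empty, hc]; linarith only [hDH2, hH, hCK]
    · rw [Finset.sum_empty, hc]; linarith only [hcon, hC12, hK]
  -- properties of elements of `Q`
  have hbpos : ∀ v ∈ Q, 0 < b v := fun v hv => (he v (hQP hv)).2
  have hsingle : ∀ T ⊆ Q, ∀ l : Fin q, (∀ v ∈ T, lab v = l) →
      ∑ v ∈ T, (e v : ℝ) * b v ≤ H + K := by
    intro T hT l hl
    have h1 : ∑ v ∈ T, (e v : ℝ) * b v ≤ ∑ v ∈ P.filter (fun v => lab v = l), (e v : ℝ) * b v := by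
      apply Finset.sum_le_sum_of_subset_of_nonneg
      · intro v hv
        exact Finset.mem_filter.2 ⟨hQP (hT hv), hl v hv⟩
      · intro v hv _
        have := (he v (Finset.mem_filter.1 hv).1).2
        positivity
    have h2 := hM l
    have h3 := hI l
    linarith only [h1, h2, h3]
  have hdk : ∀ T ⊆ Q, ∑ v ∈ T, b v ≤ ∑ v ∈ T, ((e v : ℝ) - 1) * b v := by
    intro T hT
    apply Finset.sum_le_sum
    intro v hv
    have h1 := hbpos v (hT hv)
    have h2 : (2 : ℝ) ≤ e v := by exact_mod_cast (Finset.mem_filter.1 (hT hv)).2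
    exact le_mul_of_one_le_left h1.le (by linarith only [h2])
  have hgap : ∀ T ⊆ Q, ∑ v ∈ T, b v ≤ c → ∑ v ∈ T, b v < D * H - J := by
    intro T hT h1
    by_contra hcon
    push Not at hcon
    apply good T (hT.trans hQP) h1
    have h2 := hdk T hT
    rw [hc]
    linarith only [hcon, h2, hC12, hK]
  have hbv : ∀ v ∈ Q, 2 * b v ≤ H + K := by
    intro v hv
    have h1 := hsingle {v} (by simpa using hv) (lab v) (by simp)
    rw [Finset.sum_singleton] at h1
    have h2 : (2 : ℝ) ≤ e v := by exact_mod_cast (Finset.mem_filter.1 hv).2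
    have h3 := hbpos v hv
    exact (mul_le_mul_of_nonneg_right h2 h3.le).trans h1
  -- a minimal heavy subset
  obtain ⟨T, hTmem, hTmin⟩ := Finset.exists_min_image
    (Q.powerset.filter (fun T => c < ∑ v ∈ T, b v)) Finset.card
    ⟨Q, by simp only [Finset.mem_filter, Finset.mem_powerset]; exact ⟨subset_rfl, hkQ⟩⟩
  simp only [Finset.mem_filter, Finset.mem_powerset] at hTmem hTmin
  obtain ⟨hTQ, hTc⟩ := hTmem
  have herase : ∀ v ∈ T, ∑ u ∈ T.erase v, b u < D * H - J := by
    intro v hv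
    apply hgap _ ((Finset.erase_subset _ _).trans hTQ)
    by_contra hcon
    push Not at hcon
    have := hTmin (T.erase v) ⟨(Finset.erase_subset _ _).trans hTQ, hcon⟩
    rw [Finset.card_erase_of_mem hv] at this
    have : 0 < T.card := Finset.card_pos.2 ⟨v, hv⟩
    omega
  set L : ℝ := (2 - 2 * D) * H + J + C * K with hL
  have hbL : ∀ v ∈ T, L < b v := by
    intro v hv
    have h1 := herase v hv
    have h2 := Finset.add_sum_erase T b hv
    rw [hc] at hTc
    rw [hL]
    linarith only [h1, h2, hTc]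
  have hLpos : 0 < L := by rw [hL]; linarith only [hDH2, hH, hJ0, hCK]
  have hLbig : 2 / 7 * H + C * K ≤ L := by rw [hL]; linarith only [hDH2, hJ0]
  have h3L : D * H ≤ 3 * L := by rw [hL]; linarith only [hDH2, hJ0, hCK]
  have hTne : T.Nonempty := by
    rw [Finset.nonempty_iff_ne_empty]
    rintro rfl
    rw [Finset.sum_empty, hc] at hTc
    linarith only [hTc, hDH2, hH, hCK]
  have hcard : T.card = 3 := by
    have hle : T.card ≤ 3 := by
      by_contra hcon
      push Not at hcon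
      obtain ⟨v, hv⟩ := hTne
      have h1 := herase v hv
      have h2 : (T.erase v).card • L ≤ ∑ u ∈ T.erase v, b u :=
        Finset.card_nsmul_le_sum _ _ _ (fun u hu => (hbL u (Finset.mem_of_mem_erase hu)).le)
      rw [nsmul_eq_mul, Finset.card_erase_of_mem hv] at h2
      have h3 : (3 : ℝ) ≤ ((T.card - 1 : ℕ) : ℝ) := by
        have : 3 ≤ T.card - 1 := by omega
        exact_mod_cast this
      have h4 : 3 * L ≤ ((T.card - 1 : ℕ) : ℝ) * L := mul_le_mul_of_nonneg_right h3 hLpos.le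
      linarith only [h1, h2, h4, h3L, hJ0]
    have hge : 3 ≤ T.card := by
      by_contra hcon
      push Not at hcon
      have h1 : ∑ v ∈ T, b v ≤ T.card • ((H + K) / 2) :=
        Finset.sum_le_card_nsmul _ _ _ (fun v hv => by have := hbv v (hTQ hv); linarith only [this])
      rw [nsmul_eq_mul] at h1
      have h2 : (T.card : ℝ) ≤ 2 := by
        have : T.card ≤ 2 := by omega
        exact_mod_cast this
      have h3 : (T.card : ℝ) * ((H + K) / 2) ≤ 2 * ((H + K) / 2) :=
        mul_le_mul_of_nonneg_right h2 (by linarith only [hH, hK])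
      rw [hc] at hTc
      linarith only [h1, h3, hTc, hDH2, hH, hC12, hK]
    omega
  -- name the three elements
  obtain ⟨p₃, hp₃, hp₃min⟩ := Finset.exists_min_image T b hTne
  have hcard2 : (T.erase p₃).card = 2 := by
    rw [Finset.card_erase_of_mem hp₃, hcard]
  obtain ⟨p₁, p₂, hne12, hTe⟩ := Finset.card_eq_two.1 hcard2
  have hp₁' : p₁ ∈ T.erase p₃ := by rw [hTe]; simp
  have hp₂' : p₂ ∈ T.erase p₃ := by rw [hTe]; simp
  have hp₁ : p₁ ∈ T := Finset.mem_of_mem_erase hp₁'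
  have hp₂ : p₂ ∈ T := Finset.mem_of_mem_erase hp₂'
  have hne13 : p₁ ≠ p₃ := (Finset.mem_erase.1 hp₁').1
  have hne23 : p₂ ≠ p₃ := (Finset.mem_erase.1 hp₂').1
  have hsum : b p₁ + b p₂ + b p₃ = ∑ v ∈ T, b v := by
    rw [← Finset.add_sum_erase T b hp₃, hTe, Finset.sum_pair hne12]; ring
  have hL1 := hbL p₁ hp₁
  have hL2 := hbL p₂ hp₂
  have hL3 := hbL p₃ hp₃
  have hm1 := hp₃min p₁ hp₁
  have hm2 := hp₃min p₂ hp₂
  -- distinct labels
  have hlab : ∀ p ∈ T, ∀ p' ∈ T, p ≠ p' → lab p ≠ lab p' := by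
    intro p hp p' hp' hne hlab
    have h1 := hsingle {p, p'} (by
      intro v hv
      simp only [Finset.mem_insert, Finset.mem_singleton] at hv
      rcases hv with rfl | rfl
      · exact hTQ hp
      · exact hTQ hp') (lab p) (by
      intro v hv
      simp only [Finset.mem_insert, Finset.mem_singleton] at hv
      rcases hv with rfl | rfl
      · rfl
      · exact hlab.symm)
    rw [Finset.sum_pair hne] at h1
    have h2 : (2 : ℝ) ≤ e p := by exact_mod_cast (Finset.mem_filter.1 (hTQ hp)).2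
    have h3 : (2 : ℝ) ≤ e p' := by exact_mod_cast (Finset.mem_filter.1 (hTQ hp')).2
    have h4 := hbL p hp
    have h5 := hbL p' hp'
    have h6 : 2 * b p ≤ (e p : ℝ) * b p := mul_le_mul_of_nonneg_right h2 (hLpos.trans h4).le
    have h7 : 2 * b p' ≤ (e p' : ℝ) * b p' := mul_le_mul_of_nonneg_right h3 (hLpos.trans h5).le
    linarith only [h1, h4, h5, h6, h7, hLbig, hH, hC12, hK]
  -- exponents are two or three
  have hexp : ∀ p ∈ T, e p = 2 ∨ e p = 3 := by
    intro p hp
    have h1 := hsingle {p} (by simpa using hTQ hp) (lab p) (by simp)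
    rw [Finset.sum_singleton] at h1
    have h2 : 2 ≤ e p := (Finset.mem_filter.1 (hTQ hp)).2
    have h4 := hbL p hp
    have h5 : e p ≤ 3 := by
      by_contra hcon
      push Not at hcon
      have h6 : (4 : ℝ) ≤ e p := by exact_mod_cast hcon
      have h7 : 4 * b p ≤ (e p : ℝ) * b p := mul_le_mul_of_nonneg_right h6 (hLpos.trans h4).le
      linarith only [h1, h7, h4, hLbig, hH, hC12, hK]
    omega
  -- two elements sum to less than `D'`
  have htwo : ∀ p ∈ T, ∀ p' ∈ T, p ≠ p' → b p + b p' < D * H - J := by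
    intro p hp p' hp' hne
    have h1 : ∃ r ∈ T, r ≠ p ∧ r ≠ p' := by
      have : 0 < ((T.erase p).erase p').card := by
        rw [Finset.card_erase_of_mem (Finset.mem_erase.2 ⟨hne.symm, hp'⟩),
          Finset.card_erase_of_mem hp, hcard]
        norm_num
      obtain ⟨r, hr⟩ := Finset.card_pos.1 this
      simp only [Finset.mem_erase] at hr
      exact ⟨r, hr.2.2, hr.2.1, hr.1⟩
    obtain ⟨r, hr, hrp, hrp'⟩ := h1
    have h2 := herase r hr
    have h3 : ∑ v ∈ ({p, p'} : Finset ι), b v ≤ ∑ u ∈ T.erase r, b u := by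
      apply Finset.sum_le_sum_of_subset_of_nonneg
      · intro v hv
        simp only [Finset.mem_insert, Finset.mem_singleton] at hv
        rcases hv with rfl | rfl
        · exact Finset.mem_erase.2 ⟨hrp.symm, hp⟩
        · exact Finset.mem_erase.2 ⟨hrp'.symm, hp'⟩
      · intro v hv _
        exact (hbpos v (hTQ (Finset.mem_of_mem_erase hv))).le
    rw [Finset.sum_pair hne] at h3
    linarith only [h2, h3]
  -- no exponent is three
  have hno3 : ∀ p ∈ T, e p ≠ 3 := by
    intro p hp h3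
    have h1 : ∃ r ∈ T, p ≠ r := by
      have : 0 < (T.erase p).card := by
        rw [Finset.card_erase_of_mem hp, hcard]; norm_num
      obtain ⟨r, hr⟩ := Finset.card_pos.1 this
      simp only [Finset.mem_erase] at hr
      exact ⟨r, hr.2, fun h => hr.1 h.symm⟩
    obtain ⟨r, hr, hpr⟩ := h1
    have h2 := htwo p hp r hr hpr
    apply good {p, r} (by
      intro v hv
      simp only [Finset.mem_insert, Finset.mem_singleton] at hv
      rcases hv with rfl | rfl
      · exact hQP (hTQ hp)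
      · exact hQP (hTQ hr))
    · rw [Finset.sum_pair hpr, hc]
      linarith only [h2, hDH2, hH, hJ0, hCK]
    · rw [Finset.sum_pair hpr, hc, h3]
      have h4 : (2 : ℝ) ≤ e r := by exact_mod_cast (Finset.mem_filter.1 (hTQ hr)).2
      have h5 := hbL p hp
      have h6 := hbL r hr
      have h7 : 1 * b r ≤ ((e r : ℝ) - 1) * b r :=
        mul_le_mul_of_nonneg_right (by linarith only [h4]) (hLpos.trans h6).le
      rw [Nat.cast_ofNat]
      linarith only [h5, h6, h7, h3L, hJ0, hC12, hK]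
  have he2 : ∀ p ∈ T, e p = 2 := fun p hp => (hexp p hp).resolve_right (hno3 p hp)
  apply hno
  apply sel_good_two P lab e b I H K hM he (hQP (hTQ hp₁)) (hQP (hTQ hp₂)) (hQP (hTQ hp₃))
    (hlab _ hp₁ _ hp₂ hne12) (hlab _ hp₁ _ hp₃ hne13) (hlab _ hp₂ _ hp₃ hne23)
    (he2 _ hp₁) (he2 _ hp₂) (he2 _ hp₃) 2 le_rfl
  · have hI1 := hI (lab p₁)
    have hI2 := hI (lab p₂)
    rw [hc]
    linarith only [hI1, hI2, hm1, hm2, hL3, h3L, hC12, hK]
  · rw [← hJ, hc]
    linarith only [hL1, hL2, hL3, h3L, hJ0, hC12, hK]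

end Pool.Agent.Lib.MP_4d5ce1_nt
end

section

/-!
Upper bounds for the exceptional set of the inequality truncated at level `m`: reduction to the
combinatorial statement `CombBoundM`.
-/

set_option autoImplicit false
set_option linter.unusedSectionVars false

open NumberField IsDedekindDomain

namespace Pool.Agent.Lib.MP_4d5ce1_nt

universe u

variable {K : Type u} [Field K] [NumberField K] {q : ℕ}

/-- The sum truncated at level `m` controls the mass of the support truncated at level `m`. -/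
lemma truncm_ge [NeZero q] (m : ℕ) (α : Fin q → K × K) (bad : Finset (HeightOneSpectrum (𝓞 K)))
    (S : Set (HeightOneSpectrum (𝓞 K))) (hSb : ∀ v ∈ S, v ∈ bad)
    {x : K × K} (hx : ∀ l, wedge x (α l) ≠ 0) :
    ∑ v ∈ suppF α bad x, ((min (expF α x v) m : ℕ) : ℝ) * lnv v ≤
      (Module.finrank ℚ K : ℝ) * truncm m S α x := by
  classical
  have hd : (0:ℝ) < Module.finrank ℚ K := by exact_mod_cast finrank_pos'
  set g : HeightOneSpectrum (𝓞 K) → ℝ := fun v =>
    ∑ᶠ (_ : v ∉ S), ∑ l : Fin q, min (lamf v (α l) x / (Module.finrank ℚ K : ℝ))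
      ((m : ℝ) * (Real.log (nv v) / (Module.finrank ℚ K : ℝ))) with hg
  have htr : truncm m S α x = ∑ᶠ v, g v := rfl
  have hterm : ∀ v, ∀ l, 0 ≤ min (lamf v (α l) x / (Module.finrank ℚ K : ℝ))
      ((m : ℝ) * (Real.log (nv v) / (Module.finrank ℚ K : ℝ))) := by
    intro v l
    apply le_min
    · exact div_nonneg (lamf_nonneg v (hx l)) hd.le
    · exact mul_nonneg (Nat.cast_nonneg _) (div_nonneg (log_nv_pos v).le hd.le)
  have hg0 : ∀ v, 0 ≤ g v := by
    intro v
    by_cases hv : v ∈ S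
    · have : g v = 0 := by
        simp only [hg]
        rw [finsum_eq_if, if_neg (not_not.mpr hv)]
      rw [this]
    · have : g v = ∑ l : Fin q, min (lamf v (α l) x / (Module.finrank ℚ K : ℝ))
          ((m : ℝ) * (Real.log (nv v) / (Module.finrank ℚ K : ℝ))) := by
        simp only [hg]
        rw [finsum_eq_if, if_pos hv]
      rw [this]
      exact Finset.sum_nonneg fun l _ => hterm v l
  have hgsupp : (Function.support g) ⊆ ((bad ∪ suppF α bad x : Finset _) : Set _) := by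
    intro v hv
    rw [Function.mem_support] at hv
    by_contra hc
    rw [Finset.mem_coe, Finset.mem_union] at hc
    push Not at hc
    apply hv
    simp only [hg]
    rw [finsum_eq_if]
    split_ifs with hvS
    · rfl
    apply Finset.sum_eq_zero
    intro l _
    rw [lamf_eq v (hx l), ef_eq_zero_of_not_mem hx hc.1 hc.2 l]
    have := (log_nv_pos v).le
    simp only [Nat.cast_zero, zero_mul, zero_div]
    exact min_eq_left (mul_nonneg (Nat.cast_nonneg _) (div_nonneg this hd.le))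
  have hge : ∀ v ∈ suppF α bad x,
      ((min (expF α x v) m : ℕ) : ℝ) * lnv v / (Module.finrank ℚ K : ℝ) ≤ g v := by
    intro v hv
    have hvb := ((mem_suppF hx v).mp hv).1
    have hvS : v ∉ S := fun h => hvb (hSb v h)
    have : g v = ∑ l : Fin q, min (lamf v (α l) x / (Module.finrank ℚ K : ℝ))
          ((m : ℝ) * (Real.log (nv v) / (Module.finrank ℚ K : ℝ))) := by
      simp only [hg]
      rw [finsum_eq_if, if_pos hvS]
    rw [this]
    have h4 := (log_nv_pos v).le
    have h2 : ((min (expF α x v) m : ℕ) : ℝ) * lnv v / (Module.finrank ℚ K : ℝ) ≤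
        min (lamf v (α (labF α x v)) x / (Module.finrank ℚ K : ℝ))
          ((m : ℝ) * (Real.log (nv v) / (Module.finrank ℚ K : ℝ))) := by
      apply le_min
      · rw [lamf_eq v (hx _)]
        apply div_le_div_of_nonneg_right _ hd.le
        have h3 : ((min (expF α x v) m : ℕ) : ℝ) ≤ (ef v (α (labF α x v)) x : ℝ) := by
          exact_mod_cast min_le_left _ _
        exact mul_le_mul_of_nonneg_right h3 h4
      · rw [← mul_div_assoc]
        apply div_le_div_of_nonneg_right _ hd.le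
        have h3 : ((min (expF α x v) m : ℕ) : ℝ) ≤ (m : ℝ) := by
          exact_mod_cast min_le_right _ _
        exact mul_le_mul_of_nonneg_right h3 h4
    exact h2.trans (Finset.single_le_sum (f := fun l =>
      min (lamf v (α l) x / (Module.finrank ℚ K : ℝ))
          ((m : ℝ) * (Real.log (nv v) / (Module.finrank ℚ K : ℝ)))) (fun l _ => hterm v l)
          (Finset.mem_univ _))
  rw [htr, finsum_eq_sum_of_support_subset _ hgsupp]
  have h5 : ∑ v ∈ suppF α bad x,
      ((min (expF α x v) m : ℕ) : ℝ) * lnv v / (Module.finrank ℚ K : ℝ) ≤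
      ∑ v ∈ bad ∪ suppF α bad x, g v :=
    (Finset.sum_le_sum hge).trans
      (Finset.sum_le_sum_of_subset_of_nonneg Finset.subset_union_right fun v _ _ => hg0 v)
  rw [← Finset.sum_div, div_le_iff₀ hd] at h5
  linarith

/-- The combinatorial input. -/
def CombBoundM (m q : ℕ) (D θ : ℝ) (N : ℕ) : Prop :=
  ∃ C : ℝ, 0 < C ∧ ∀ {ι : Type u} (P : Finset ι) (lab : ι → Fin q) (e : ι → ℕ)
    (b : ι → ℝ) (I : Fin q → ℝ) (H K : ℝ), 0 ≤ H → 0 < K → (∀ v ∈ P, 1 ≤ e v ∧ 0 < b v) →
    (∀ l, 0 ≤ I l) →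
    (∀ l, |∑ v ∈ P.filter (fun v => lab v = l), (e v : ℝ) * b v + I l - H| ≤ K) →
    ∑ v ∈ P, ((min (e v) m : ℕ) : ℝ) * b v ≤ (q - D) * H + K →
    HasTool P lab e b I N (θ * H + C * K)

open Classical in
theorem countingm [NeZero q] (m : ℕ) (D θ : ℝ) (hθ : 0 ≤ θ) (N : ℕ) (hcomb : CombBoundM.{u} m q D θ N)
    (S : Set (HeightOneSpectrum (𝓞 K))) (hS : S.Finite)
    (α : Fin q → K × K) (hα : ∀ l m, l ≠ m → wedge (α l) (α m) ≠ 0)
    (c₀ η : ℝ) (hη : 0 < η) :
    ∃ C : ℝ, ∀ B : ℝ, 1 ≤ B → ∀ X : Finset (K × K),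
      (∀ x ∈ X, ∀ l, wedge x (α l) ≠ 0) →
      (∀ x ∈ X, ∀ y ∈ X, x ≠ y → wedge x y ≠ 0) →
      (∀ x ∈ X, Real.exp (ht x) ≤ B) →
      (∀ x ∈ X, truncm m S α x ≤ ((q:ℝ) - D) * ht x + c₀) →
      (X.card : ℝ) ≤ C * B ^ (θ * (Module.finrank ℚ K : ℝ) + η) := by
  have hd : (0:ℝ) < Module.finrank ℚ K := by exact_mod_cast finrank_pos'
  set d : ℝ := (Module.finrank ℚ K : ℝ) with hdd
  obtain ⟨bad, hSb, hbad⟩ := exists_bad α hα S hS
  obtain ⟨C₁, hC₁, hC⟩ := hcomb
  have hmas := fun (n : ℕ) (i j : Fin q) (h : 1 ≤ n ∧ i ≠ j) =>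
    master α hα bad hbad n h.1 i j h.2 (η / d) (by positivity)
  choose Cm hCm hmas using hmas
  set K₀ : ℝ := ∑ l, (|hh (α l)| + d) with hK₀
  have hK₀0 : 0 ≤ K₀ := by positivity
  have hKl : ∀ l, |hh (α l)| + d ≤ K₀ := fun l =>
    Finset.single_le_sum (f := fun l => |hh (α l)| + d)
      (fun l _ => by positivity) (Finset.mem_univ l)
  set K₁ : ℝ := K₀ + d * |c₀| + 1 with hK₁
  have hK₁0 : 0 < K₁ := by positivity
  set J : Finset (ℕ × Fin q × Fin q) := Finset.range (N + 1) ×ˢ Finset.univ with hJ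
  set Cf : ℕ × Fin q × Fin q → ℝ := fun p =>
    if h : 1 ≤ p.1 ∧ p.2.1 ≠ p.2.2 then Cm p.1 p.2.1 p.2.2 h else 0 with hCf
  have hCf0 : ∀ p, 0 ≤ Cf p := by
    intro p
    simp only [hCf]
    split_ifs with h
    · exact (hCm _ _ _ h).le
    · exact le_rfl
  refine ⟨(∑ p ∈ J, Cf p) * Real.exp (C₁ * K₁), ?_⟩
  intro B hB X hX hXX hH hN
  have hB0 : 0 < B := by linarith
  set β : ℝ := d * Real.log B with hβ
  have hβ0 : 0 ≤ β := mul_nonneg hd.le (Real.log_nonneg hB)
  have hhβ : ∀ x ∈ X, hh x ≤ β := by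
    intro x hx
    have h1 := hH x hx
    rw [← Real.le_log_iff_exp_le hB0, ht_eq, div_le_iff₀ hd] at h1
    rw [hβ]
    linarith
  -- tools
  have htool : ∀ x ∈ X, HasTool (suppF α bad x) (labF α x) (expF α x) lnv (idxF α bad x) N
      (θ * hh x + C₁ * K₁) := by
    intro x hx
    apply hC _ _ _ _ _ _ _ (hh_nonneg (wedge_left_ne (hX x hx 0))) hK₁0
    · intro v hv
      exact ⟨exp_pos_of_mem (hX x hx) hv, lnv_pos v⟩
    · exact idxF_nonneg α bad x
    · intro l
      refine (config_fmt hα hbad (hX x hx) l).trans ?_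
      have h1 := hKl l
      have h2 : 0 ≤ d * |c₀| := by positivity
      rw [hK₁]
      linarith
    · have h1 := truncm_ge m α bad S hSb (hX x hx)
      have h2 := hN x hx
      have h3 : d * truncm m S α x ≤ d * (((q:ℝ) - D) * ht x + c₀) :=
        mul_le_mul_of_nonneg_left h2 hd.le
      have h4 : d * (((q:ℝ) - D) * ht x + c₀) = ((q:ℝ) - D) * hh x + d * c₀ := by
        rw [ht_eq, ← hdd]
        field_simp
      have h5 : d * c₀ ≤ d * |c₀| := mul_le_mul_of_nonneg_left (le_abs_self _) hd.le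
      rw [hK₁]
      linarith
  set Xp : ℕ × Fin q × Fin q → Finset (K × K) := fun p => X.filter fun x =>
    (1 ≤ p.1 ∧ p.2.1 ≠ p.2.2) ∧ ∃ W : Finset (HeightOneSpectrum (𝓞 K)), W ⊆ suppF α bad x ∧
      (∀ v ∈ suppF α bad x, v ∉ W → (labF α x v = p.2.1 ∨ labF α x v = p.2.2) →
        p.1 ∣ expF α x v) ∧
      toolCost (suppF α bad x) (labF α x) (expF α x) lnv (idxF α bad x) p.1 p.2.1 p.2.2 W ≤
        θ * β + C₁ * K₁ with hXp
  have hcover : X ⊆ J.biUnion Xp := by
    intro x hx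
    obtain ⟨n, hn1, hnN, i, j, hij, W, hWs, hWd, hWc⟩ := htool x hx
    rw [Finset.mem_biUnion]
    refine ⟨(n, i, j), ?_, ?_⟩
    · rw [hJ, Finset.mem_product]
      exact ⟨Finset.mem_range.mpr (by omega), Finset.mem_univ _⟩
    · rw [hXp, Finset.mem_filter]
      refine ⟨hx, ⟨hn1, hij⟩, W, hWs, hWd, hWc.trans ?_⟩
      have := mul_le_mul_of_nonneg_left (hhβ x hx) hθ
      linarith
  have hpart : ∀ p ∈ J, ((Xp p).card : ℝ) ≤
      Cf p * Real.exp (θ * β + C₁ * K₁ + η / d * β) := by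
    intro p _
    by_cases hp : 1 ≤ p.1 ∧ p.2.1 ≠ p.2.2
    · simp only [hCf]
      rw [dif_pos hp]
      refine hmas p.1 p.2.1 p.2.2 hp β _ (Xp p) ?_ ?_ ?_ ?_
      · intro x hx
        exact hX x (Finset.mem_filter.mp hx).1
      · intro x hx y hy
        exact hXX x (Finset.mem_filter.mp hx).1 y (Finset.mem_filter.mp hy).1
      · intro x hx
        exact hhβ x (Finset.mem_filter.mp hx).1
      · intro x hx
        exact (Finset.mem_filter.mp hx).2.2
    · have : Xp p = ∅ := by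
        rw [hXp, Finset.filter_eq_empty_iff]
        intro x _ h
        exact hp h.1
      rw [this, Finset.card_empty, Nat.cast_zero]
      exact mul_nonneg (hCf0 p) (Real.exp_pos _).le
  have hexp : Real.exp (θ * β + C₁ * K₁ + η / d * β) =
      Real.exp (C₁ * K₁) * B ^ (θ * d + η) := by
    rw [Real.rpow_def_of_pos hB0, ← Real.exp_add]
    congr 1
    rw [hβ]
    field_simp
    ring
  calc (X.card : ℝ) ≤ ((J.biUnion Xp).card : ℝ) := by
        exact_mod_cast Finset.card_le_card hcover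
    _ ≤ ((∑ p ∈ J, (Xp p).card : ℕ) : ℝ) := by
        exact_mod_cast Finset.card_biUnion_le
    _ = ∑ p ∈ J, ((Xp p).card : ℝ) := by push_cast; rfl
    _ ≤ ∑ p ∈ J, Cf p * Real.exp (θ * β + C₁ * K₁ + η / d * β) := Finset.sum_le_sum hpart
    _ = _ := by
        rw [← Finset.sum_mul, hexp]
        ring

end Pool.Agent.Lib.MP_4d5ce1_nt
end

section

/-!
The combinatorial statement for the inequality truncated at level `m`.
-/

set_option autoImplicit false

namespace Pool.Agent.Lib.MP_4d5ce1_nt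

universe u

/-- Greedy selection of a set of prime powers with exponents larger than `m`. -/
theorem combBoundM_select (m : ℕ) (hm : 1 ≤ m) (q : ℕ) (hq : 2 ≤ q) (D : ℝ) :
    CombBoundM.{u} m q D (max (2 - D) (6 / (2 * (m : ℝ) + 3))) 1 := by
  classical
  refine ⟨q + 5, by positivity, ?_⟩
  intro ι P lab e b I H K hH hK he hI hMabs hS
  have hm1 : (1 : ℝ) ≤ m := by exact_mod_cast hm
  have hm0 : (0 : ℝ) < m := by linarith
  set θ : ℝ := max (2 - D) (6 / (2 * (m : ℝ) + 3)) with hθ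
  have hθ1 : 2 - D ≤ θ := le_max_left _ _
  have hθ2 : 6 / (2 * (m : ℝ) + 3) ≤ θ := le_max_right _ _
  have hθ3 : 6 / (2 * (m : ℝ) + 3) * H ≤ θ * H := mul_le_mul_of_nonneg_right hθ2 hH
  have hθ4 : (2 - D) * H ≤ θ * H := mul_le_mul_of_nonneg_right hθ1 hH
  have hq2 : (2 : ℝ) ≤ q := by exact_mod_cast hq
  have hqK : 0 ≤ (q : ℝ) * K := by positivity
  have hMle : ∀ l, ∑ v ∈ P.filter (fun v => lab v = l), (e v : ℝ) * b v + I l ≤ H + K := by
    intro l
    have := (abs_le.mp (hMabs l)).2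
    linarith
  have h01 : (⟨0, by omega⟩ : Fin q) ≠ ⟨1, by omega⟩ := by
    intro h; simp at h
  set J : ℝ := ∑ l, I l with hJ
  have hJ0 : 0 ≤ J := Finset.sum_nonneg fun l _ => hI l
  set P' : Finset ι := P.filter (fun v => m < e v) with hP'
  have hP'P : P' ⊆ P := Finset.filter_subset _ _
  have hmem : ∀ v ∈ P', v ∈ P ∧ (m : ℝ) + 1 ≤ e v ∧ 0 < b v := by
    intro v hv
    obtain ⟨h1, h2⟩ := Finset.mem_filter.mp hv
    exact ⟨h1, by exact_mod_cast h2, (he v h1).2⟩
  -- costs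
  have hc1 : ∀ W ⊆ P', ((m : ℝ) + 1) * ∑ v ∈ W, b v ≤ ∑ v ∈ W, (e v : ℝ) * b v := by
    intro W hW
    rw [Finset.mul_sum]
    exact Finset.sum_le_sum fun v hv =>
      mul_le_mul_of_nonneg_right (hmem v (hW hv)).2.1 (hmem v (hW hv)).2.2.le
  have hc2 : ∀ W ⊆ P', (m : ℝ) * ∑ v ∈ W, (e v : ℝ) * b v ≤
      ((m : ℝ) + 1) * ∑ v ∈ W, ((e v : ℝ) - 1) * b v := by
    intro W hW
    rw [Finset.mul_sum, Finset.mul_sum]
    refine Finset.sum_le_sum fun v hv => ?_
    obtain ⟨_, h1, h2⟩ := hmem v (hW hv)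
    nlinarith
  -- the total mass
  have htot : (q : ℝ) * H - q * K ≤ ∑ v ∈ P, (e v : ℝ) * b v + J := by
    have h1 : ∑ v ∈ P, (e v : ℝ) * b v =
        ∑ l : Fin q, ∑ v ∈ P.filter (fun v => lab v = l), (e v : ℝ) * b v :=
      (Finset.sum_fiberwise P lab _).symm
    rw [h1, hJ, ← Finset.sum_add_distrib]
    have h2 : ∑ l : Fin q, (H - K) ≤ ∑ l : Fin q,
        (∑ v ∈ P.filter (fun v => lab v = l), (e v : ℝ) * b v + I l) := by
      refine Finset.sum_le_sum fun l _ => ?_
      have := (abs_le.mp (hMabs l)).1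
      linarith
    rw [Finset.sum_const, Finset.card_univ, Fintype.card_fin, nsmul_eq_mul] at h2
    linarith
  have hloss : D * H - (q + 1) * K ≤ ∑ v ∈ P', ((e v : ℝ) - m) * b v + J := by
    have h1 : ∑ v ∈ P, (e v : ℝ) * b v - ∑ v ∈ P, ((min (e v) m : ℕ) : ℝ) * b v =
        ∑ v ∈ P', ((e v : ℝ) - m) * b v := by
      rw [← Finset.sum_sub_distrib, hP', Finset.sum_filter]
      refine Finset.sum_congr rfl fun v _ => ?_
      split_ifs with h
      · rw [min_eq_right h.le]; ring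
      · rw [min_eq_left (not_lt.mp h)]; ring
    linarith
  have hxH : ∀ v ∈ P, (e v : ℝ) * b v ≤ H + K := by
    intro v hv
    have h1 := hMle (lab v)
    have h2 : (e v : ℝ) * b v ≤ ∑ v' ∈ P.filter (fun v' => lab v' = lab v), (e v' : ℝ) * b v' :=
      Finset.single_le_sum (f := fun v' => (e v' : ℝ) * b v')
        (fun v' hv' => mul_nonneg (Nat.cast_nonneg _)
          (he v' (Finset.mem_filter.mp hv').1).2.le)
        (Finset.mem_filter.mpr ⟨hv, rfl⟩)
    have h3 := hI (lab v)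
    linarith
  -- the general conclusion
  set c : ℝ := θ * H + ((q : ℝ) + 5) * K with hc
  have hbase : 6 / (2 * (m : ℝ) + 3) * H + 2 * K ≤ c := by
    rw [hc]; nlinarith
  have hfin : ∀ W ⊆ P', (∑ v ∈ W, b v ≤ 6 / (2 * (m : ℝ) + 3) * H + 2 * K) →
      (2 * (2 * ((m : ℝ) + 1) / (2 * m + 3) * H) ≤ J + ∑ v ∈ W, (e v : ℝ) * b v) →
      HasTool P lab e b I 1 c := by
    intro W hW h1 h2
    refine sel_good P lab e b I H K hMle h01 W (hW.trans hP'P) 1 le_rfl c (h1.trans hbase) ?_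
    refine le_trans ?_ hbase
    have h3 := hc2 W hW
    have h4 : (m : ℝ) * (J + ∑ v ∈ W, (e v : ℝ) * b v) ≤
        ((m : ℝ) + 1) * (J + ∑ v ∈ W, ((e v : ℝ) - 1) * b v) := by nlinarith
    have h5 : (m : ℝ) * (2 * (2 * ((m : ℝ) + 1) / (2 * m + 3) * H)) ≤
        ((m : ℝ) + 1) * (J + ∑ v ∈ W, ((e v : ℝ) - 1) * b v) :=
      (mul_le_mul_of_nonneg_left h2 hm0.le).trans h4
    have h6 : (m : ℝ) * (2 * (2 * ((m : ℝ) + 1) / (2 * m + 3) * H)) =
        ((m : ℝ) + 1) * (4 * m / (2 * m + 3) * H) := by ring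
    rw [h6] at h5
    have h7 := le_of_mul_le_mul_left h5 (by linarith : (0 : ℝ) < (m : ℝ) + 1)
    have h8 : 6 / (2 * (m : ℝ) + 3) * H = 2 * H - 4 * m / (2 * m + 3) * H := by
      field_simp; ring
    rw [h8]
    linarith
  have hK1 : K / ((m : ℝ) + 1) ≤ K := div_le_self hK.le (by linarith)
  by_cases hA : J + ∑ v ∈ P', (e v : ℝ) * b v ≤ 2 * H
  · refine sel_good P lab e b I H K hMle h01 P' hP'P 1 le_rfl c ?_ ?_
    · refine le_trans ?_ hbase
      have h1 := hc1 P' subset_rfl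
      have h2 : ((m : ℝ) + 1) * ∑ v ∈ P', b v ≤ 2 * H := by linarith
      have h3 : ∑ v ∈ P', b v ≤ 2 * H / ((m : ℝ) + 1) := by
        rw [le_div_iff₀ (by linarith)]; linarith
      have h4 : 2 * H / ((m : ℝ) + 1) ≤ 6 / (2 * (m : ℝ) + 3) * H := by
        rw [div_le_iff₀ (by linarith)]
        have h5 : 6 / (2 * (m : ℝ) + 3) * H * ((m : ℝ) + 1) =
            (6 * ((m : ℝ) + 1) / (2 * m + 3)) * H := by ring
        rw [h5]
        refine mul_le_mul_of_nonneg_right ?_ hH
        rw [le_div_iff₀ (by linarith)]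
        linarith
      linarith
    · have h1 : ∑ v ∈ P', ((e v : ℝ) - m) * b v ≤ ∑ v ∈ P', ((e v : ℝ) - 1) * b v :=
        Finset.sum_le_sum fun v hv =>
          mul_le_mul_of_nonneg_right (by linarith) (hmem v hv).2.2.le
      rw [hc]
      nlinarith
  · push Not at hA
    set x₀ : ℝ := 2 * ((m : ℝ) + 1) / (2 * m + 3) * H with hx₀
    have hx0H : x₀ ≤ H := by
      rw [hx₀]
      have : 2 * ((m : ℝ) + 1) / (2 * m + 3) ≤ 1 := by
        rw [div_le_one (by linarith)]; linarith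
      nlinarith
    have hx0 : 0 ≤ x₀ := by rw [hx₀]; positivity
    have hx3 : 3 * x₀ / ((m : ℝ) + 1) = 6 / (2 * (m : ℝ) + 3) * H := by
      rw [hx₀]; field_simp; ring
    have hH1 : (H + K) / ((m : ℝ) + 1) + (H + K) / ((m : ℝ) + 1) ≤
        6 / (2 * (m : ℝ) + 3) * H + 2 * K := by
      have h4 : 2 * H / ((m : ℝ) + 1) ≤ 6 / (2 * (m : ℝ) + 3) * H := by
        rw [div_le_iff₀ (by linarith)]
        have h5 : 6 / (2 * (m : ℝ) + 3) * H * ((m : ℝ) + 1) =
            (6 * ((m : ℝ) + 1) / (2 * m + 3)) * H := by ring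
        rw [h5]
        refine mul_le_mul_of_nonneg_right ?_ hH
        rw [le_div_iff₀ (by linarith)]
        linarith
      have h6 : (H + K) / ((m : ℝ) + 1) + (H + K) / ((m : ℝ) + 1) =
          2 * H / ((m : ℝ) + 1) + 2 * (K / ((m : ℝ) + 1)) := by ring
      rw [h6]
      linarith
    have hb1 : ∀ v ∈ P', b v ≤ (H + K) / ((m : ℝ) + 1) := by
      intro v hv
      obtain ⟨h1, h2, h3⟩ := hmem v hv
      rw [le_div_iff₀ (by linarith)]
      have := hxH v h1
      nlinarith
    have hpos1 : 0 ≤ (H + K) / ((m : ℝ) + 1) := by positivity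
    by_cases hB : ∃ v ∈ P', ∃ w ∈ P', v ≠ w ∧ x₀ < (e v : ℝ) * b v ∧ x₀ < (e w : ℝ) * b w
    · obtain ⟨v, hv, w, hw, hvw, h1, h2⟩ := hB
      refine hfin {v, w} ?_ ?_ ?_
      · intro z hz
        rw [Finset.mem_insert, Finset.mem_singleton] at hz
        rcases hz with rfl | rfl
        · exact hv
        · exact hw
      · rw [Finset.sum_pair hvw]
        have h3 := hb1 v hv
        have h4 := hb1 w hw
        linarith
      · rw [Finset.sum_pair hvw]
        linarith
    · push Not at hB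
      set 𝒲 : Finset (Finset ι) := P'.powerset.filter
        (fun W => 2 * x₀ ≤ J + ∑ v ∈ W, (e v : ℝ) * b v) with h𝒲
      have hne : 𝒲.Nonempty := by
        refine ⟨P', Finset.mem_filter.mpr ⟨Finset.mem_powerset.mpr subset_rfl, ?_⟩⟩
        linarith
      obtain ⟨W, hW, hmin⟩ := Finset.exists_min_image 𝒲 Finset.card hne
      obtain ⟨hWp, hW2⟩ := Finset.mem_filter.mp hW
      have hWP := Finset.mem_powerset.mp hWp
      have hdel : ∀ v ∈ W, J + ∑ z ∈ W.erase v, (e z : ℝ) * b z < 2 * x₀ := by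
        intro v hv
        by_contra hcon
        push Not at hcon
        have h1 : W.erase v ∈ 𝒲 := Finset.mem_filter.mpr
          ⟨Finset.mem_powerset.mpr ((Finset.erase_subset _ _).trans hWP), hcon⟩
        have h2 := hmin _ h1
        have h3 := Finset.card_erase_lt_of_mem hv
        omega
      refine hfin W hWP ?_ hW2
      by_cases hsm : ∃ v ∈ W, (e v : ℝ) * b v ≤ x₀
      · obtain ⟨v, hv, h1⟩ := hsm
        have h2 := hdel v hv
        have h3 := Finset.add_sum_erase W (fun z => (e z : ℝ) * b z) hv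
        have h4 : ∑ z ∈ W, (e z : ℝ) * b z ≤ 3 * x₀ := by
          have h3' : (e v : ℝ) * b v + ∑ z ∈ W.erase v, (e z : ℝ) * b z =
            ∑ z ∈ W, (e z : ℝ) * b z := h3
          linarith
        have h5 := hc1 W hWP
        have h6 : ∑ z ∈ W, b z ≤ 3 * x₀ / ((m : ℝ) + 1) := by
          rw [le_div_iff₀ (by linarith)]; linarith
        rw [hx3] at h6
        linarith
      · push Not at hsm
        have hcard : W.card ≤ 1 := by
          rw [Finset.card_le_one]
          intro v hv w hw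
          by_contra hne
          exact absurd (hB v (hWP hv) w (hWP hw) hne (hsm v hv)) (not_le.mpr (hsm w hw))
        rcases Nat.le_one_iff_eq_zero_or_eq_one.mp hcard with h0 | h0
        · rw [Finset.card_eq_zero.mp h0, Finset.sum_empty]
          positivity
        · obtain ⟨v, h⟩ := Finset.card_eq_one.mp h0
          rw [h, Finset.sum_singleton]
          have h1 : v ∈ P' := hWP (by rw [h]; exact Finset.mem_singleton_self v)
          have h2 := hb1 v h1
          linarith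

end Pool.Agent.Lib.MP_4d5ce1_nt
end

section

/-!
# Upper bound for the exceptional set, counting functions truncated at level `m`
-/

set_option autoImplicit false
set_option linter.unusedSectionVars false
set_option linter.unusedVariables false

open NumberField IsDedekindDomain Height

namespace Pool.Agent.Lib.MP_4d5ce1_nt

universe u

variable {K : Type u} [Field K] [NumberField K] {q : ℕ}

lemma combBound_selection' (q : ℕ) (hq : 2 ≤ q) (D : ℝ) (hD0 : 0 ≤ D) (hD : D ≤ 6 / 7) :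
    CombBound.{u} q D (2 - D) 2 := by
  obtain ⟨C, hC, h⟩ := selection.{u} q hq D hD0 hD
  exact ⟨C, hC, fun P lab e b I H K h1 h2 h3 h4 h5 h6 => h P lab e b I H K h1 h2 h3 h4 h5 h6⟩

/-- The exponent `κ_m`: `8/7` for `m = 1`, `6 / (2m + 3)` for `m ≥ 2`. -/
noncomputable def kapm (m : ℕ) : ℝ := if m = 1 then 8 / 7 else 6 / (2 * (m : ℝ) + 3)

/-- Upper bound for all levels `m ≥ 1` and all `D ≥ 0`.

PROOF. `m ≥ 2`: `countingm` with `θ = max (2 - D) (6/(2m+3)) ≥ 0` and `combBoundM_select`.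
`m = 1`: `truncm 1 S α x = trunc S α x` (unfold both; `((1:ℕ):ℝ) * y = y`). If `D ≤ 6/7`, use `counting` with
`combBound_selection'` and `2 - D ≤ max (2-D) (8/7)` (`B ≥ 1`; the constant `C` may be replaced by `|C|`
to compare powers). If `D > 6/7`: `ht x ≥ 0` (logHeight nonneg, see how `ht` is defined in Defs.lean; the
points satisfy `x ≠ 0` because a wedge is nonzero), so `(q - D) ht x + c ≤ (q - 6/7) ht x + c`: apply the
case `D = 6/7`, exponent `8/7 = max (2 - D) (8/7)`. -/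
theorem upper_boundm (hq : 2 ≤ q) (m : ℕ) (hm : 1 ≤ m) (S : Set (HeightOneSpectrum (𝓞 K)))
    (hS : S.Finite) (α : Fin q → K × K)
    (hα : ∀ l m, l ≠ m → wedge (α l) (α m) ≠ 0) (D : ℝ) (hD0 : 0 ≤ D) (c η : ℝ)
    (hη : 0 < η) :
    ∃ C : ℝ, ∀ B : ℝ, 1 ≤ B → ∀ X : Finset (K × K),
      (∀ x ∈ X, ∀ l, wedge x (α l) ≠ 0) →
      (∀ x ∈ X, ∀ y ∈ X, x ≠ y → wedge x y ≠ 0) →
      (∀ x ∈ X, Real.exp (ht x) ≤ B) →
      (∀ x ∈ X, truncm m S α x ≤ ((q:ℝ) - D) * ht x + c) →
      (X.card : ℝ) ≤ C * B ^ (max (2 - D) (kapm m) * (Module.finrank ℚ K : ℝ) + η) := by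
  have hnz : NeZero q := ⟨by omega⟩
  have hd : (0 : ℝ) < Module.finrank ℚ K := by exact_mod_cast finrank_pos'
  by_cases hm1 : m = 1
  · subst hm1
    have htr : ∀ x, truncm 1 S α x = trunc S α x := by
      intro x
      unfold truncm trunc
      simp only [Nat.cast_one, one_mul]
    have hk : kapm 1 = 8 / 7 := if_pos rfl
    rw [hk]
    have hpow : ∀ (C B θ : ℝ), 1 ≤ B → θ ≤ max (2 - D) (8 / 7) →
        C * B ^ (θ * (Module.finrank ℚ K : ℝ) + η) ≤
          |C| * B ^ (max (2 - D) (8 / 7) * (Module.finrank ℚ K : ℝ) + η) := by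
      intro C B θ hB hθ
      have hB0 : 0 ≤ B := by linarith
      have h1 : C * B ^ (θ * (Module.finrank ℚ K : ℝ) + η) ≤
          |C| * B ^ (θ * (Module.finrank ℚ K : ℝ) + η) :=
        mul_le_mul_of_nonneg_right (le_abs_self C) (Real.rpow_nonneg hB0 _)
      refine h1.trans (mul_le_mul_of_nonneg_left ?_ (abs_nonneg C))
      apply Real.rpow_le_rpow_of_exponent_le hB
      have := mul_le_mul_of_nonneg_right hθ hd.le
      linarith
    by_cases hD : D ≤ 6 / 7
    · obtain ⟨C, hC⟩ := counting D (2 - D) (by linarith) 2 (combBound_selection' q hq D hD0 hD) S hS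
        α hα c η hη
      refine ⟨|C|, fun B hB X h1 h2 h3 h4 => ?_⟩
      refine (hC B hB X h1 h2 h3 (fun x hx => ?_)).trans (hpow C B (2 - D) hB (le_max_left _ _))
      rw [← htr]
      exact h4 x hx
    · push Not at hD
      obtain ⟨C, hC⟩ := counting (6 / 7) (2 - 6 / 7) (by norm_num) 2
        (combBound_selection' q hq (6 / 7) (by norm_num) le_rfl) S hS α hα c η hη
      refine ⟨|C|, fun B hB X h1 h2 h3 h4 => ?_⟩
      refine (hC B hB X h1 h2 h3 (fun x hx => ?_)).trans (hpow C B (2 - 6 / 7) hB ?_)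
      · rw [← htr]
        refine (h4 x hx).trans ?_
        have h5 : 0 ≤ ht x := by
          rw [ht_eq]
          exact div_nonneg (hh_nonneg (wedge_left_ne (h1 x hx ⟨0, by omega⟩))) hd.le
        have h6 : ((q : ℝ) - D) * ht x ≤ ((q : ℝ) - 6 / 7) * ht x :=
          mul_le_mul_of_nonneg_right (by linarith) h5
        linarith
      · refine le_trans (by norm_num) (le_max_right _ _)
  · have hk : kapm m = 6 / (2 * (m : ℝ) + 3) := if_neg hm1
    rw [hk]
    have hθ : 0 ≤ max (2 - D) (6 / (2 * (m : ℝ) + 3)) := le_trans (by positivity) (le_max_right _ _)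
    exact countingm m D _ hθ 1 (combBoundM_select m hm q hq D) S hS α hα c η hη

end Pool.Agent.Lib.MP_4d5ce1_nt
end
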