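import Pool.Agent.Lib.MP_4d5ce1_nt.LB.Point
import Pool.Agent.Lib.MP_4d5ce1_nt.Lv.Defs
import Pool.Agent.Lib.MP_4d5ce1_nt.LB.Lower

section

/-!
# The points `3^N t a + 2^M s b`: counting function truncated at level `m`
-/

set_option autoImplicit false
set_option linter.unusedSectionVars false
set_option linter.unusedVariables false

open NumberField IsDedekindDomain Height

namespace Pool.Agent.Lib.MP_4d5ce1_nt

variable {K : Type*} [Field K] [NumberField K] {q : ℕ}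

/-- `3^N t` as an algebraic integer. -/
def c3 (N : ℕ) (t : 𝓞 K) : 𝓞 K := 3 ^ N * t
/-- `2^M s` as an algebraic integer. -/
def c2 (M : ℕ) (s : 𝓞 K) : 𝓞 K := 2 ^ M * s

lemma c3_coe (N : ℕ) (t : 𝓞 K) : ((c3 N t : 𝓞 K) : K) = ((3 : ℕ) : K) ^ N * (t : K) := by
  have h : algebraMap (𝓞 K) K (3 ^ N * t) = (3 : K) ^ N * algebraMap (𝓞 K) K t := by
    rw [map_mul, map_pow, map_ofNat]
  have h3 : ((3 : ℕ) : K) = 3 := by norm_num
  rw [h3]
  exact h

lemma c2_coe (M : ℕ) (s : 𝓞 K) : ((c2 M s : 𝓞 K) : K) = ((2 : ℕ) : K) ^ M * (s : K) := by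
  have h : algebraMap (𝓞 K) K (2 ^ M * s) = (2 : K) ^ M * algebraMap (𝓞 K) K s := by
    rw [map_mul, map_pow, map_ofNat]
  have h3 : ((2 : ℕ) : K) = 2 := by norm_num
  rw [h3]
  exact h

lemma pt_zero_comm (a b : K × K) (s t : 𝓞 K) : pt a b 0 s t = pt b a 0 t s := by
  unfold pt
  simp only [pow_zero, one_mul]
  rw [add_comm, add_comm ((s : K) * a.2)]

/-- Local sizes of numbers `1 + p z`. -/
lemma fa_one_add_mul (v : HeightOneSpectrum (𝓞 K)) (p : ℕ) (hp : fa v (p : K) < 1) (z : 𝓞 K) :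
    fa v (1 + (p : K) * (z : K)) = 1 := by
  have h3 : fa v ((p : K) * (z : K)) < fa v (1 : K) := by
    rw [fa_mul, fa_one]
    calc fa v (p : K) * fa v (z : K) ≤ fa v (p : K) * 1 :=
          mul_le_mul_of_nonneg_left (fa_int_le_one v z) (fa_nonneg v _)
      _ < 1 := by rw [mul_one]; exact hp
  rw [add_comm, fa_add_eq_right v h3, fa_one]

lemma fa_three_of_two (v : HeightOneSpectrum (𝓞 K)) (h : fa v ((2 : ℕ) : K) < 1) :
    fa v ((3 : ℕ) : K) = 1 := by
  have h1 := fa_one_add_mul v 2 h 1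
  have e : (1 : K) + ((2 : ℕ) : K) * ((1 : 𝓞 K) : K) = ((3 : ℕ) : K) := by
    push_cast; norm_num
  rwa [e] at h1

lemma fa_two_of_three (v : HeightOneSpectrum (𝓞 K)) (h : fa v ((3 : ℕ) : K) < 1) :
    fa v ((2 : ℕ) : K) = 1 := by
  have h1 := fa_one_add_mul v 3 h (-1)
  have e : (1 : K) + ((3 : ℕ) : K) * ((-1 : 𝓞 K) : K) = -((2 : ℕ) : K) := by
    push_cast; norm_num
  rw [e, fa_neg] at h1
  exact h1

/-- Lower bound for the local heights above the natural number `p`. -/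
lemma low_prime (a b : K × K) (hab : wedge a b ≠ 0) (p : ℕ) (hp : 2 ≤ p) (hp0 : ((p : ℕ) : K) ≠ 0)
    (M : ℕ) (σ τ' τ : 𝓞 K) (hτ : (τ : K) = (p : K) ^ M * (τ' : K))
    (hσ : ∀ v : HeightOneSpectrum (𝓞 K), fa v (p : K) < 1 → fa v (σ : K) = 1)
    (hx : wedge (pt a b 0 σ τ) a ≠ 0) :
    (M : ℝ) * ((Module.finrank ℚ K : ℝ) * Real.log p) +
        ∑ v ∈ (finite_fa_ne_one hp0).toFinset, Real.log (sz v a / sz v b) ≤
      ∑ v ∈ (finite_fa_ne_one hp0).toFinset, lamf v a (pt a b 0 σ τ) := by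
  classical
  have hd : (0:ℝ) < Module.finrank ℚ K := by exact_mod_cast finrank_pos'
  set d : ℝ := (Module.finrank ℚ K : ℝ) with hdd
  have ha0 := wedge_left_ne hab
  have hb0 := wedge_right_ne hab
  set T : Finset (HeightOneSpectrum (𝓞 K)) := (finite_fa_ne_one hp0).toFinset with hT
  have hmemT : ∀ v, v ∈ T ↔ fa v (p : K) ≠ 1 := by
    intro v; rw [hT, Set.Finite.mem_toFinset]; rfl
  have hpf2 : ∑ v ∈ T, Real.log (fa v (p : K)) = - (d * Real.log p) := by
    have h1 := product_formula hp0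
    have h2 : ∑ᶠ v : HeightOneSpectrum (𝓞 K), Real.log (fa v (p : K)) =
        ∑ v ∈ T, Real.log (fa v (p : K)) := by
      refine finsum_eq_sum_of_support_subset _ ?_
      intro v hv
      rw [Finset.mem_coe, hmemT]
      intro h
      rw [Function.mem_support] at hv
      exact hv (by rw [h, Real.log_one])
    have h3 : ∑ w : InfinitePlace K, (w.mult : ℝ) * Real.log (w (p : K)) = d * Real.log p := by
      rw [hdd, ← sum_mult_real (K := K), Finset.sum_mul]
      exact Finset.sum_congr rfl fun w _ => by rw [InfinitePlace.map_natCast]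
    rw [h2, h3] at h1
    linarith
  set x := pt a b 0 σ τ with hxdef
  have hx0 : x ≠ 0 := wedge_left_ne hx
  have h1 : (M : ℝ) * (d * Real.log p) = ∑ v ∈ T, (-(M : ℝ) * Real.log (fa v (p : K))) := by
    rw [← Finset.mul_sum, hpf2]; ring
  rw [h1, ← Finset.sum_add_distrib]
  refine Finset.sum_le_sum fun v hv => ?_
  have hv2 : fa v (p : K) < 1 := lt_of_le_of_ne (fa_natCast_le_one v p) ((hmemT v).mp hv)
  have hv20 : 0 < fa v (p : K) := fa_pos v hp0
  have hfs := hσ v hv2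
  have hW : 0 < fa v (wedge a b) := fa_pos v hab
  have hWs : fa v (wedge b a) = fa v (wedge a b) := by
    rw [wedge_swap, fa_neg]
  have hsza := sz_pos v ha0
  have hszb := sz_pos v hb0
  have hszx := sz_pos v hx0
  have h4 : fa v (wedge a b) ≤ sz v x * sz v b := by
    have h5 := fa_wedge_le v x b
    rw [hxdef, wedge_pt_right, fa_mul, hfs, one_mul] at h5
    exact h5
  have h6 : fa v (wedge x a) ≤ fa v (p : K) ^ M * fa v (wedge a b) := by
    rw [hxdef, wedge_pt_left, pow_zero, one_mul, fa_mul, hτ, fa_mul, fa_pow, hWs]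
    refine mul_le_mul_of_nonneg_right ?_ hW.le
    calc fa v (p : K) ^ M * fa v (τ' : K) ≤ fa v (p : K) ^ M * 1 :=
          mul_le_mul_of_nonneg_left (fa_int_le_one v τ') (pow_nonneg hv20.le _)
      _ = _ := mul_one _
  have h7 : 0 < fa v (wedge x a) := fa_pos v hx
  have h8 : sz v a / sz v b / fa v (p : K) ^ M ≤ sz v x * sz v a / fa v (wedge x a) := by
    rw [div_div, div_le_div_iff₀ (by positivity) h7]
    calc sz v a * fa v (wedge x a) ≤ sz v a * (fa v (p : K) ^ M * fa v (wedge a b)) :=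
          mul_le_mul_of_nonneg_left h6 hsza.le
      _ ≤ sz v a * (fa v (p : K) ^ M * (sz v x * sz v b)) := by
          refine mul_le_mul_of_nonneg_left ?_ hsza.le
          exact mul_le_mul_of_nonneg_left h4 (by positivity)
      _ = _ := by ring
  have h9 := Real.log_le_log (by positivity) h8
  rw [Real.log_div (by positivity) (by positivity), Real.log_pow] at h9
  unfold lamf
  linarith

end Pool.Agent.Lib.MP_4d5ce1_nt
end

section

/-!
# The points `3^N t α_{l0} + 2^M s α_{l1}`: bound for the counting function truncated at level `m`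
-/

set_option autoImplicit false
set_option linter.unusedSectionVars false
set_option linter.unusedVariables false

open NumberField IsDedekindDomain Height

namespace Pool.Agent.Lib.MP_4d5ce1_nt

variable {K : Type*} [Field K] [NumberField K] {q : ℕ}

/-- The points `x = 3^N t α_{l0} + 2^M s α_{l1}` with `s = 1 + 3 s'`, `t = 1 + 2 t'` have small counting
function (truncated at level `m`).

PROOF: copy the proof of `pt_trunc` (LB/Point.lean) with two finite sets `T2 = {v | fa v 2 ≠ 1}` and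
`T3 = {v | fa v 3 ≠ 1}` (both `(finite_fa_ne_one _).toFinset`). Lower bounds for the local heights:
* `low_prime (α l0) (α l1) _ 2 _ _ M (c3 N t) s (c2 M s)` gives
  `M d log 2 + const ≤ ∑ v ∈ T2, lamf v (α l0) x`: for `fa v 2 < 1` we have `fa v 3 = 1`
  (`fa_three_of_two`) and `fa v t = 1` (`fa_one_add_mul`), so `fa v (c3 N t) = 1`;
* `x = pt (α l1) (α l0) 0 (c2 M s) (c3 N t)` by `pt_zero_comm`, and `low_prime (α l1) (α l0) _ 3 _ _ N
  (c2 M s) t (c3 N t)` gives `N d log 3 + const ≤ ∑ v ∈ T3, lamf v (α l1) x`.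
Then `g v ≤ F v - G2 v - G3 v` with `F v = ∑ l, lamf v (α l) x / d`,
`G2 v = if v ∈ T2 then lamf v (α l0) x / d - m log (nv v) / d else 0`,
`G3 v = if v ∈ T3 then lamf v (α l1) x / d - m log (nv v) / d else 0`. (For `v ∈ T2 ∩ T3`, which is in
fact impossible, the inequality also holds term by term because `l0 ≠ l1`: subtract in the terms
`l0` and `l1` of the sum over `l` separately; use `min a b ≤ b` there and `min a b ≤ a` elsewhere.)
`finsum_lamf_le` bounds `∑ᶠ v, F v ≤ (q hh x + const) / d`, `ht = hh / d`. -/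
theorem pt2_trunc (m : ℕ) (S : Set (HeightOneSpectrum (𝓞 K))) (α : Fin q → K × K)
    (hα : ∀ l m, l ≠ m → wedge (α l) (α m) ≠ 0) (l0 l1 : Fin q) (hl : l0 ≠ l1) :
    ∃ C : ℝ, 0 ≤ C ∧ ∀ (M N : ℕ) (s t s' t' : 𝓞 K), s = 1 + 3 * s' → t = 1 + 2 * t' →
      s ≠ 0 → t ≠ 0 →
      (∀ l, wedge (pt (α l0) (α l1) 0 (c3 N t) (c2 M s)) (α l) ≠ 0) →
      truncm m S α (pt (α l0) (α l1) 0 (c3 N t) (c2 M s)) ≤
        (q : ℝ) * ht (pt (α l0) (α l1) 0 (c3 N t) (c2 M s)) - (M : ℝ) * Real.log 2 -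
          (N : ℝ) * Real.log 3 + C := by
  classical
  have hd : (0:ℝ) < Module.finrank ℚ K := by exact_mod_cast finrank_pos'
  set d : ℝ := (Module.finrank ℚ K : ℝ) with hdd
  have hab : wedge (α l0) (α l1) ≠ 0 := hα l0 l1 hl
  have hba : wedge (α l1) (α l0) ≠ 0 := hα l1 l0 (Ne.symm hl)
  have h2K : ((2 : ℕ) : K) ≠ 0 := by exact_mod_cast (two_ne_zero : (2 : ℕ) ≠ 0)
  have h3K : ((3 : ℕ) : K) ≠ 0 := by exact_mod_cast (three_ne_zero : (3 : ℕ) ≠ 0)
  set T2 : Finset (HeightOneSpectrum (𝓞 K)) := (finite_fa_ne_one h2K).toFinset with hT2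
  set T3 : Finset (HeightOneSpectrum (𝓞 K)) := (finite_fa_ne_one h3K).toFinset with hT3
  set C₁ : ℝ := ∑ l, (hh (α l) + d * Real.log 2) + (m : ℝ) * ∑ v ∈ T2, Real.log (nv v) +
    (m : ℝ) * ∑ v ∈ T3, Real.log (nv v) -
    ∑ v ∈ T2, Real.log (sz v (α l0) / sz v (α l1)) -
    ∑ v ∈ T3, Real.log (sz v (α l1) / sz v (α l0)) with hC₁
  refine ⟨|C₁| / d, by positivity, ?_⟩
  intro M N s t s' t' hss htt hs ht0 hx
  -- lower bounds of the local heights above `2` and `3`
  have hlow2 := low_prime (α l0) (α l1) hab 2 le_rfl h2K M (c3 N t) s (c2 M s) (c2_coe M s)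
    (by
      intro v hv
      have h2 : (t : K) = 1 + ((2 : ℕ) : K) * (t' : K) := by
        have h22 : algebraMap (𝓞 K) K 2 = 2 := map_ofNat _ 2
        have h23 : algebraMap (𝓞 K) K t = 1 + ((2 : ℕ) : K) * algebraMap (𝓞 K) K t' := by
          rw [htt, map_add, map_mul, map_one, h22]
          norm_num
        exact h23
      rw [c3_coe, fa_mul, fa_pow, fa_three_of_two v hv, one_pow, one_mul, h2]
      exact fa_one_add_mul v 2 hv t') (hx l0)
  have hx1 : wedge (pt (α l1) (α l0) 0 (c2 M s) (c3 N t)) (α l1) ≠ 0 := by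
    rw [pt_zero_comm]; exact hx l1
  have hlow3 := low_prime (α l1) (α l0) hba 3 (by norm_num) h3K N (c2 M s) t (c3 N t) (c3_coe N t)
    (by
      intro v hv
      have h2 : (s : K) = 1 + ((3 : ℕ) : K) * (s' : K) := by
        have h22 : algebraMap (𝓞 K) K 3 = 3 := map_ofNat _ 3
        have h23 : algebraMap (𝓞 K) K s = 1 + ((3 : ℕ) : K) * algebraMap (𝓞 K) K s' := by
          rw [hss, map_add, map_mul, map_one, h22]
          norm_num
        exact h23
      rw [c2_coe, fa_mul, fa_pow, fa_two_of_three v hv, one_pow, one_mul, h2]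
      exact fa_one_add_mul v 3 hv s') hx1
  rw [pt_zero_comm (α l1) (α l0)] at hlow3
  rw [← hT2, ← hdd] at hlow2
  rw [← hT3, ← hdd] at hlow3
  push_cast at hlow2 hlow3
  set x := pt (α l0) (α l1) 0 (c3 N t) (c2 M s) with hxdef
  have hx0 : x ≠ 0 := wedge_left_ne (hx l0)
  -- the truncated sum
  set g : HeightOneSpectrum (𝓞 K) → ℝ := fun v =>
    ∑ᶠ (_ : v ∉ S), ∑ l : Fin q, min (lamf v (α l) x / d) ((m : ℝ) * (Real.log (nv v) / d)) with hg
  have htr : truncm m S α x = ∑ᶠ v, g v := rfl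
  have hB0 : ∀ v : HeightOneSpectrum (𝓞 K), 0 ≤ (m : ℝ) * (Real.log (nv v) / d) := fun v =>
    mul_nonneg (Nat.cast_nonneg _) (div_nonneg (log_nv_pos v).le hd.le)
  have hterm : ∀ v, ∀ l, 0 ≤ min (lamf v (α l) x / d) ((m : ℝ) * (Real.log (nv v) / d)) := by
    intro v l
    apply le_min
    · exact div_nonneg (lamf_nonneg v (hx l)) hd.le
    · exact hB0 v
  set F : HeightOneSpectrum (𝓞 K) → ℝ := fun v => ∑ l : Fin q, lamf v (α l) x / d with hF
  set G2 : HeightOneSpectrum (𝓞 K) → ℝ := fun v =>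
    if v ∈ T2 then lamf v (α l0) x / d - (m : ℝ) * (Real.log (nv v) / d) else 0 with hG2
  set G3 : HeightOneSpectrum (𝓞 K) → ℝ := fun v =>
    if v ∈ T3 then lamf v (α l1) x / d - (m : ℝ) * (Real.log (nv v) / d) else 0 with hG3
  have hgle : ∀ v, g v ≤ F v - (G2 v + G3 v) := by
    intro v
    have h1 : g v ≤ ∑ l : Fin q, min (lamf v (α l) x / d) ((m : ℝ) * (Real.log (nv v) / d)) := by
      simp only [hg]
      rw [finsum_eq_if]
      by_cases h : v ∈ S
      · rw [if_neg (not_not.mpr h)]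
        exact Finset.sum_nonneg fun l _ => hterm v l
      · rw [if_pos h]
    refine h1.trans ?_
    have h2 : ∀ l : Fin q, min (lamf v (α l) x / d) ((m : ℝ) * (Real.log (nv v) / d)) ≤
        lamf v (α l) x / d - ((if l = l0 then G2 v else 0) + (if l = l1 then G3 v else 0)) := by
      intro l
      by_cases hl0 : l = l0
      · rw [if_pos hl0, if_neg (by rw [hl0]; exact hl)]
        simp only [hG2]
        split_ifs
        · rw [hl0]
          have := min_le_right (lamf v (α l0) x / d) ((m : ℝ) * (Real.log (nv v) / d))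
          linarith
        · have := min_le_left (lamf v (α l) x / d) ((m : ℝ) * (Real.log (nv v) / d))
          linarith
      · rw [if_neg hl0]
        by_cases hl1 : l = l1
        · rw [if_pos hl1]
          simp only [hG3]
          split_ifs
          · rw [hl1]
            have := min_le_right (lamf v (α l1) x / d) ((m : ℝ) * (Real.log (nv v) / d))
            linarith
          · have := min_le_left (lamf v (α l) x / d) ((m : ℝ) * (Real.log (nv v) / d))
            linarith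
        · rw [if_neg hl1]
          have := min_le_left (lamf v (α l) x / d) ((m : ℝ) * (Real.log (nv v) / d))
          linarith
    refine (Finset.sum_le_sum fun l _ => h2 l).trans ?_
    rw [Finset.sum_sub_distrib, Finset.sum_add_distrib, Finset.sum_ite_eq', Finset.sum_ite_eq',
      if_pos (Finset.mem_univ _), if_pos (Finset.mem_univ _)]
  have hFl : ∀ l, (Function.support fun v : HeightOneSpectrum (𝓞 K) =>
      lamf v (α l) x / d).Finite := by
    intro l
    refine (finite_lamf (hx l)).subset fun v hv hv' => ?_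
    rw [Function.mem_support] at hv
    have hv2 : lamf v (α l) x = 0 := hv'
    exact hv (by rw [hv2, zero_div])
  have hFsupp : (Function.support F).Finite := by
    refine (Set.finite_iUnion fun l => hFl l).subset ?_
    intro v hv
    rw [Function.mem_support] at hv
    by_contra hc
    apply hv
    simp only [hF]
    refine Finset.sum_eq_zero fun l _ => ?_
    by_contra hne
    exact hc (Set.mem_iUnion.mpr ⟨l, hne⟩)
  have hG2sub : Function.support G2 ⊆ (T2 : Set (HeightOneSpectrum (𝓞 K))) := by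
    intro v hv
    rw [Function.mem_support] at hv
    by_contra hc
    apply hv
    simp only [hG2]
    rw [if_neg]
    exact fun h => hc (Finset.mem_coe.mpr h)
  have hG3sub : Function.support G3 ⊆ (T3 : Set (HeightOneSpectrum (𝓞 K))) := by
    intro v hv
    rw [Function.mem_support] at hv
    by_contra hc
    apply hv
    simp only [hG3]
    rw [if_neg]
    exact fun h => hc (Finset.mem_coe.mpr h)
  have hG2supp : (Function.support G2).Finite := T2.finite_toSet.subset hG2sub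
  have hG3supp : (Function.support G3).Finite := T3.finite_toSet.subset hG3sub
  have hGsupp : (Function.support fun v => G2 v + G3 v).Finite :=
    (hG2supp.union hG3supp).subset (Function.support_add G2 G3)
  have hgsupp : (Function.support g).Finite := by
    refine (Set.finite_iUnion fun l => hFl l).subset ?_
    intro v hv
    rw [Function.mem_support] at hv
    by_contra hc
    apply hv
    simp only [hg]
    rw [finsum_eq_if]
    by_cases h : v ∈ S
    · rw [if_neg (not_not.mpr h)]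
    · rw [if_pos h]
      refine Finset.sum_eq_zero fun l _ => ?_
      have h1 : lamf v (α l) x / d = 0 := by
        by_contra hne
        exact hc (Set.mem_iUnion.mpr ⟨l, hne⟩)
      rw [h1]
      exact min_eq_left (hB0 v)
  have hsum1 : ∑ᶠ v, g v ≤ ∑ᶠ v, F v - (∑ᶠ v, G2 v + ∑ᶠ v, G3 v) := by
    rw [← finsum_add_distrib hG2supp hG3supp, ← finsum_sub_distrib hFsupp hGsupp]
    refine finsum_le_finsum' hgsupp ?_ hgle
    exact (hFsupp.union hGsupp).subset (Function.support_sub F fun v => G2 v + G3 v)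
  have hsumG2 : ∑ᶠ v, G2 v =
      (∑ v ∈ T2, lamf v (α l0) x - (m : ℝ) * ∑ v ∈ T2, Real.log (nv v)) / d := by
    rw [finsum_eq_sum_of_support_subset _ hG2sub, Finset.mul_sum, ← Finset.sum_sub_distrib,
      Finset.sum_div]
    refine Finset.sum_congr rfl fun v hv => ?_
    simp only [hG2]
    rw [if_pos hv, sub_div, mul_div_assoc]
  have hsumG3 : ∑ᶠ v, G3 v =
      (∑ v ∈ T3, lamf v (α l1) x - (m : ℝ) * ∑ v ∈ T3, Real.log (nv v)) / d := by
    rw [finsum_eq_sum_of_support_subset _ hG3sub, Finset.mul_sum, ← Finset.sum_sub_distrib,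
      Finset.sum_div]
    refine Finset.sum_congr rfl fun v hv => ?_
    simp only [hG3]
    rw [if_pos hv, sub_div, mul_div_assoc]
  have hsumF : ∑ᶠ v, F v ≤ ((q : ℝ) * hh x + ∑ l, (hh (α l) + d * Real.log 2)) / d := by
    have h1 : ∑ᶠ v, F v = ∑ l, ∑ᶠ v, lamf v (α l) x / d := by
      simp only [hF]
      exact finsum_sum_comm Finset.univ (fun v l => lamf v (α l) x / d) (fun l _ => hFl l)
    have h2 : ∀ l, ∑ᶠ v, lamf v (α l) x / d = (∑ᶠ v, lamf v (α l) x) / d := by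
      intro l
      rw [div_eq_mul_inv, finsum_mul]
      exact finsum_congr fun v => div_eq_mul_inv _ _
    rw [h1, Finset.sum_congr rfl fun l _ => h2 l, ← Finset.sum_div]
    refine div_le_div_of_nonneg_right ?_ hd.le
    calc ∑ l, ∑ᶠ v, lamf v (α l) x ≤ ∑ l : Fin q, (hh x + (hh (α l) + d * Real.log 2)) :=
          Finset.sum_le_sum fun l _ => finsum_lamf_le (hx l)
      _ = _ := by
          rw [Finset.sum_add_distrib, Finset.sum_const, Finset.card_univ, Fintype.card_fin,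
            nsmul_eq_mul]
  rw [htr]
  refine hsum1.trans ?_
  rw [hsumG2, hsumG3]
  have hfin : ((q : ℝ) * hh x + ∑ l, (hh (α l) + d * Real.log 2)) / d -
      ((∑ v ∈ T2, lamf v (α l0) x - (m : ℝ) * ∑ v ∈ T2, Real.log (nv v)) / d +
      (∑ v ∈ T3, lamf v (α l1) x - (m : ℝ) * ∑ v ∈ T3, Real.log (nv v)) / d) ≤
      (q : ℝ) * ht x - (M : ℝ) * Real.log 2 - (N : ℝ) * Real.log 3 + |C₁| / d := by
    rw [← add_div, ← sub_div, div_le_iff₀ hd, ht_eq, ← hdd]
    have h1 : ((q : ℝ) * (hh x / d) - (M : ℝ) * Real.log 2 - (N : ℝ) * Real.log 3 + |C₁| / d) * d =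
        (q : ℝ) * hh x - (M : ℝ) * (d * Real.log 2) - (N : ℝ) * (d * Real.log 3) + |C₁| := by
      field_simp
    rw [h1]
    have h2 := le_abs_self C₁
    rw [hC₁] at h2 ⊢
    linarith
  linarith

end Pool.Agent.Lib.MP_4d5ce1_nt
end

section

/-!
# Lower bound for the exceptional set, counting functions truncated at level `m`, `0 ≤ D < 2`
-/

set_option autoImplicit false
set_option linter.unusedSectionVars false
set_option linter.unusedVariables false

open NumberField IsDedekindDomain Height Filter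

namespace Pool.Agent.Lib.MP_4d5ce1_nt

variable {K : Type*} [Field K] [NumberField K] {q : ℕ}

/-- The growth estimate for two symmetric boxes. -/
private theorem lvl_growth (d : ℕ) (D : ℝ) (η₀ : ℝ) (hη₀ : 0 < η₀)
    (hη₁ : η₀ ≤ (2 - D) * (d : ℝ)) (c₁ c₂ C₂ qq : ℝ) (hc₁ : 0 < c₁) (hc₂ : 0 < c₂) (hC₂ : 0 < C₂)
    (hqq : 0 ≤ qq) :
    ∀ᶠ B : ℝ in atTop, ∀ N₁ N₂ R : ℝ, (c₁ * B ^ (1 - D / 2)) ^ d / 2 ≤ N₁ →
      (c₂ * B ^ (1 - D / 2)) ^ d / 2 ≤ N₂ →
      N₁ * N₂ ≤ C₂ * B ^ (η₀ / 2) * R →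
        B ^ ((2 - D) * (d : ℝ) - η₀) + qq ≤ R := by
  have h2 : Tendsto (fun B : ℝ => (c₁ ^ d / 2 * (c₂ ^ d / 2) / C₂) * B ^ (η₀ / 2)) atTop atTop :=
    (tendsto_rpow_atTop (by positivity)).const_mul_atTop (by positivity)
  filter_upwards [h2.eventually_ge_atTop (1 + qq), eventually_ge_atTop (1 : ℝ)] with B hB hB1
  intro N₁ N₂ R hN₁ hN₂ hR
  have hB0 : 0 < B := by linarith
  set E : ℝ := (2 - D) * (d : ℝ) with hE
  have h3 : (c₁ ^ d / 2 * (c₂ ^ d / 2)) * B ^ E ≤ N₁ * N₂ := by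
    have e1 : B ^ E = (B ^ (1 - D / 2)) ^ d * (B ^ (1 - D / 2)) ^ d := by
      rw [← Real.rpow_natCast (B ^ (1 - D / 2)) d, ← Real.rpow_mul hB0.le,
        ← Real.rpow_add hB0, hE]
      congr 1
      ring
    calc (c₁ ^ d / 2 * (c₂ ^ d / 2)) * B ^ E =
          ((c₁ * B ^ (1 - D / 2)) ^ d / 2) * ((c₂ * B ^ (1 - D / 2)) ^ d / 2) := by
          rw [e1, mul_pow, mul_pow]; ring
      _ ≤ N₁ * N₂ := mul_le_mul hN₁ hN₂ (by positivity) (le_trans (by positivity) hN₁)
  have h4 : (c₁ ^ d / 2 * (c₂ ^ d / 2)) * B ^ E ≤ C₂ * B ^ (η₀ / 2) * R := h3.trans hR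
  have e2 : B ^ E = B ^ (η₀ / 2) * (B ^ (η₀ / 2) * B ^ (E - η₀)) := by
    rw [← Real.rpow_add hB0, ← Real.rpow_add hB0]
    congr 1
    ring
  have hpos : 0 < B ^ (η₀ / 2) := Real.rpow_pos_of_pos hB0 _
  have h5 : (c₁ ^ d / 2 * (c₂ ^ d / 2)) * (B ^ (η₀ / 2) * B ^ (E - η₀)) ≤ C₂ * R := by
    rw [e2] at h4
    have : B ^ (η₀ / 2) * ((c₁ ^ d / 2 * (c₂ ^ d / 2)) * (B ^ (η₀ / 2) * B ^ (E - η₀))) ≤
        B ^ (η₀ / 2) * (C₂ * R) := by
      calc _ = (c₁ ^ d / 2 * (c₂ ^ d / 2)) *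
            (B ^ (η₀ / 2) * (B ^ (η₀ / 2) * B ^ (E - η₀))) := by ring
        _ ≤ C₂ * B ^ (η₀ / 2) * R := h4
        _ = _ := by ring
    exact le_of_mul_le_mul_left this hpos
  have hone : 1 ≤ B ^ (E - η₀) := Real.one_le_rpow hB1 (by linarith)
  have h6 : (1 + qq) * B ^ (E - η₀) ≤ R := by
    have h7 : (1 + qq) * B ^ (E - η₀) ≤
        (c₁ ^ d / 2 * (c₂ ^ d / 2) / C₂) * B ^ (η₀ / 2) * B ^ (E - η₀) :=
      mul_le_mul_of_nonneg_right hB (by linarith)
    have h8 : (c₁ ^ d / 2 * (c₂ ^ d / 2) / C₂) * B ^ (η₀ / 2) * B ^ (E - η₀) ≤ R := by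
      rw [div_mul_eq_mul_div, div_mul_eq_mul_div, div_le_iff₀ hC₂, mul_comm R]
      calc _ = (c₁ ^ d / 2 * (c₂ ^ d / 2)) * (B ^ (η₀ / 2) * B ^ (E - η₀)) := by ring
        _ ≤ _ := h5
    exact h7.trans h8
  have h9 : qq ≤ qq * B ^ (E - η₀) := le_mul_of_one_le_right hqq hone
  rw [add_mul, one_mul] at h6
  linarith only [h6, h9]

/-- The elements `1 + k s'`, `s'` in a box. -/
private theorem lvl_card (k : 𝓞 K) (hk : k ≠ 0) (T : Finset (𝓞 K)) (d : ℕ) (hd : 1 ≤ d) (x : ℝ)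
    (hx : 2 ≤ x) (hT : x ^ d ≤ (T.card : ℝ)) [DecidableEq (𝓞 K)] :
    x ^ d / 2 ≤ (((T.image fun s' : 𝓞 K => 1 + k * s').filter (fun s => s ≠ 0)).card : ℝ) := by
  set P := (T.image fun s' : 𝓞 K => 1 + k * s').filter (fun s => s ≠ 0) with hP
  have e2 : T.card ≤ P.card + 1 := by
    have e3 : (T.image fun s' : 𝓞 K => 1 + k * s').card = T.card := by
      refine Finset.card_image_of_injective _ fun x y h => ?_
      have h4 : k * x = k * y := add_left_cancel h
      exact mul_left_cancel₀ hk h4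
    rw [← e3, ← Finset.card_filter_add_card_filter_not (s := T.image fun s' : 𝓞 K => 1 + k * s')
      (fun s => s ≠ 0)]
    refine Nat.add_le_add_left ?_ _
    rw [Finset.card_le_one]
    intro x hx y hy
    rw [Finset.mem_filter, not_not] at hx hy
    rw [hx.2, hy.2]
  have e4 : (T.card : ℝ) ≤ (P.card : ℝ) + 1 := by exact_mod_cast e2
  have e6 : (2 : ℝ) ≤ x ^ d := by
    calc (2 : ℝ) ≤ x := hx
      _ = x ^ 1 := (pow_one _).symm
      _ ≤ x ^ d := pow_le_pow_right₀ (by linarith only [hx]) hd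
  linarith only [e4, e6, hT]

private theorem lvl_exp (n : ℕ) (p : ℝ) (hp : 0 < p) : p ^ n = Real.exp ((n : ℝ) * Real.log p) := by
  rw [mul_comm, Real.exp_mul, Real.exp_log hp, Real.rpow_natCast]

/-- Lower bound for all levels `m` and all `0 ≤ D < 2`.

PROOF: adapt `lower_bound'` of LB/Lower.lean. `l0 = 0, l1 = 1`, points `pt (α l0) (α l1) 0 (c3 N t) (c2 M s)`
with `s = 1 + 3 s'`, `t = 1 + 2 t'`. With `C` from `pt_ht (α l0) (α l1)` (used with `M = 0`: it needs
`w (c3 N t) ≤ Y`, `2^0 w (c2 M s) ≤ Y`, both nonzero), `C'` from `pt2_trunc`, `L = log B`, `Y = B e^{-C}`: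
`M = ⌈(D L / 2 + C' + |c|) / log 2⌉₊`, `N = ⌈(D L / 2) / log 3⌉₊`. So
`M log 2 + N log 3 ≥ D L + C' + |c|` and `2^M ≤ 2 e^{C'+|c|} B^{D/2}`, `3^N ≤ 3 B^{D/2}`.
Boxes: `s' ∈ T₁` with `w s' ≤ Y / (6 · 2^M)`, `t' ∈ T₂` with `w t' ≤ Y / (4 · 3^N)` (from `box_lower`; both
radii are `≥ const · B^{1 - D/2} → ∞` because `D < 2`); `s = 1 + 3 s' ≠ 0`, `t = 1 + 2 t' ≠ 0` (each
condition removes at most one element); then `2^M w s ≤ 2^M (1 + 3 w s') ≤ Y/2 + Y/2`,
`3^N w t ≤ Y` for large `B`. Cardinalities `≥ (const B^{1-D/2})^d / 2` each, product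
`≥ const B^{(2-D) d}`. Ratios: `ratio_count` for the set of ratios `s / t` (heights of `s`, `t` are `≤ d L`,
`logHeight_integral_le`), `select_points` (the wedge of two points is
`(c3 N t * c2 M s' - c3 N t' * c2 M s) * wedge (α l0) (α l1)` by `wedge_pt_pt`, nonzero when the ratios
differ). A `growth` lemma with `(c₁ B^{1-D/2})^d / 2 ≤ N₁`, `(c₂ B^{1-D/2})^d / 2 ≤ N₂` instead of the one in
LB/Lower.lean; note that the exponent `(2-D) d - η` can be negative (replace `η` by `min η 1`, and use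
`X ≠ ∅` resp. `R ≥ B^{(2-D)d - η₀} + q` for large `B`: choose `η₀ < (2-D) d` too, e.g.
`η₀ = min η (min 1 ((2-D) d / 2))`, then `B^{(2-D)d-η₀} → ∞` absorbs `q`). -/
theorem lower_boundm (hq : 2 ≤ q) (m : ℕ) (S : Set (HeightOneSpectrum (𝓞 K))) (α : Fin q → K × K)
    (hα : ∀ l m, l ≠ m → wedge (α l) (α m) ≠ 0) (D : ℝ) (hD0 : 0 ≤ D) (hD2 : D < 2) (c η : ℝ)
    (hη : 0 < η) :
    ∃ B₀ : ℝ, ∀ B : ℝ, B₀ ≤ B → ∃ X : Finset (K × K),
      (∀ x ∈ X, ∀ l, wedge x (α l) ≠ 0) ∧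
      (∀ x ∈ X, ∀ y ∈ X, x ≠ y → wedge x y ≠ 0) ∧
      (∀ x ∈ X, Real.exp (ht x) ≤ B) ∧
      (∀ x ∈ X, truncm m S α x ≤ ((q : ℝ) - D) * ht x + c) ∧
      B ^ ((2 - D) * (Module.finrank ℚ K : ℝ) - η) ≤ (X.card : ℝ) := by
  classical
  set d : ℕ := Module.finrank ℚ K with hd
  have hd1 : 1 ≤ d := Module.finrank_pos
  have hd1' : (1 : ℝ) ≤ (d : ℝ) := by exact_mod_cast hd1
  set l0 : Fin q := ⟨0, by omega⟩ with hl0
  set l1 : Fin q := ⟨1, by omega⟩ with hl1
  have hl : l0 ≠ l1 := by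
    intro h
    have := congrArg Fin.val h
    simp [hl0, hl1] at this
  have hab : wedge (α l0) (α l1) ≠ 0 := hα l0 l1 hl
  have hα0 : ∀ l, α l ≠ 0 := by
    intro l
    by_cases h : l = l0
    · rw [h]; exact wedge_left_ne hab
    · exact wedge_left_ne (hα l l0 h)
  obtain ⟨c₁, Z₀, hc₁, hZ₀, hbox⟩ := box_lower K
  obtain ⟨C, hC, hht⟩ := pt_ht (α l0) (α l1) hab
  obtain ⟨C', hC', htr⟩ := pt2_trunc m S α hα l0 l1 hl
  set η₀ : ℝ := min η ((2 - D) * (d : ℝ)) with hη₀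
  have hη₀pos : 0 < η₀ := lt_min hη (mul_pos (by linarith) (by linarith))
  obtain ⟨C₂, hC₂, hratio⟩ := ratio_count K (d : ℝ) (η₀ / 2) (by positivity) (by positivity)
  have hexpC : 1 ≤ Real.exp C := Real.one_le_exp hC
  have hlog2 : 0 < Real.log 2 := Real.log_pos one_lt_two
  have hlog3 : 0 < Real.log 3 := Real.log_pos (by norm_num)
  set κ₁ : ℝ := Real.exp (-C) * Real.exp (-(C' + |c|)) / 12 with hκ₁
  set κ₂ : ℝ := Real.exp (-C) / 12 with hκ₂
  have hκ₁pos : 0 < κ₁ := by positivity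
  have hκ₂pos : 0 < κ₂ := by positivity
  have hev1 : ∀ᶠ B : ℝ in atTop, max Z₀ (2 / c₁) ≤ κ₁ * B ^ (1 - D / 2) :=
    ((tendsto_rpow_atTop (by linarith)).const_mul_atTop hκ₁pos).eventually_ge_atTop _
  have hev2 : ∀ᶠ B : ℝ in atTop, max Z₀ (2 / c₁) ≤ κ₂ * B ^ (1 - D / 2) :=
    ((tendsto_rpow_atTop (by linarith)).const_mul_atTop hκ₂pos).eventually_ge_atTop _
  have hev3 := lvl_growth d D η₀ hη₀pos (min_le_right _ _) (c₁ * κ₁) (c₁ * κ₂) C₂
    q (by positivity) (by positivity) hC₂ (Nat.cast_nonneg q)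
  obtain ⟨B₀, hB₀⟩ := Filter.eventually_atTop.1 (((hev1.and hev2).and hev3).and
    (eventually_ge_atTop (1 : ℝ)))
  refine ⟨B₀, fun B hB => ?_⟩
  obtain ⟨⟨⟨h1, h2⟩, h3⟩, hB1⟩ := hB₀ B hB
  have hBpos : 0 < B := one_pos.trans_le hB1
  set L : ℝ := Real.log B with hL
  have hL0 : 0 ≤ L := Real.log_nonneg hB1
  have hexpL : Real.exp L = B := Real.exp_log hBpos
  set Y : ℝ := B * Real.exp (-C) with hY
  have hYC : Y * Real.exp C = B := by
    rw [hY, mul_assoc, ← Real.exp_add]; simp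
  have hYpos : 0 < Y := by positivity
  have hYB : Y ≤ B := by
    rw [← hYC]
    exact le_mul_of_one_le_right hYpos.le hexpC
  have hlogY : Real.log Y + C = L := by
    rw [hY, Real.log_mul hBpos.ne' (Real.exp_pos _).ne', Real.log_exp]; ring
  set M : ℕ := ⌈(D * L / 2 + (C' + |c|)) / Real.log 2⌉₊ with hM
  have hMge : D * L / 2 + (C' + |c|) ≤ (M : ℝ) * Real.log 2 := by
    rw [← div_le_iff₀ hlog2]
    exact Nat.le_ceil _
  have hMle : (M : ℝ) * Real.log 2 ≤ D * L / 2 + (C' + |c|) + Real.log 2 := by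
    have h4 : (M : ℝ) < (D * L / 2 + (C' + |c|)) / Real.log 2 + 1 :=
      Nat.ceil_lt_add_one (by positivity)
    have h5 : (M : ℝ) * Real.log 2 ≤ ((D * L / 2 + (C' + |c|)) / Real.log 2 + 1) * Real.log 2 :=
      mul_le_mul_of_nonneg_right h4.le hlog2.le
    rwa [add_mul, div_mul_cancel₀ _ hlog2.ne', one_mul] at h5
  set N : ℕ := ⌈(D * L / 2) / Real.log 3⌉₊ with hN
  have hNge : D * L / 2 ≤ (N : ℝ) * Real.log 3 := by
    rw [← div_le_iff₀ hlog3]
    exact Nat.le_ceil _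
  have hNle : (N : ℝ) * Real.log 3 ≤ D * L / 2 + Real.log 3 := by
    have h4 : (N : ℝ) < (D * L / 2) / Real.log 3 + 1 :=
      Nat.ceil_lt_add_one (by positivity)
    have h5 : (N : ℝ) * Real.log 3 ≤ ((D * L / 2) / Real.log 3 + 1) * Real.log 3 :=
      mul_le_mul_of_nonneg_right h4.le hlog3.le
    rwa [add_mul, div_mul_cancel₀ _ hlog3.ne', one_mul] at h5
  have h2Mpos : (0 : ℝ) < 2 ^ M := by positivity
  have h3Npos : (0 : ℝ) < 3 ^ N := by positivity
  have hBD : B ^ (1 - D / 2) = Real.exp (L - D * L / 2) := by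
    rw [Real.rpow_def_of_pos hBpos, ← hL]; congr 1; ring
  have hZ1 : κ₁ * B ^ (1 - D / 2) ≤ Y / (6 * 2 ^ M) := by
    rw [le_div_iff₀ (by positivity), lvl_exp M 2 two_pos]
    calc κ₁ * B ^ (1 - D / 2) * (6 * Real.exp ((M : ℝ) * Real.log 2))
        ≤ κ₁ * B ^ (1 - D / 2) * (6 * Real.exp (D * L / 2 + (C' + |c|) + Real.log 2)) :=
          mul_le_mul_of_nonneg_left (mul_le_mul_of_nonneg_left (Real.exp_le_exp.2 hMle)
            (by norm_num)) (by positivity)
      _ = Y := by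
          rw [hκ₁, hBD, hY, Real.exp_add (D * L / 2 + (C' + |c|)), Real.exp_log two_pos,
            Real.exp_add (D * L / 2), Real.exp_sub, Real.exp_neg (C' + |c|), ← hexpL]
          field_simp
          ring
  have hZ2 : κ₂ * B ^ (1 - D / 2) ≤ Y / (4 * 3 ^ N) := by
    rw [le_div_iff₀ (by positivity), lvl_exp N 3 three_pos]
    calc κ₂ * B ^ (1 - D / 2) * (4 * Real.exp ((N : ℝ) * Real.log 3))
        ≤ κ₂ * B ^ (1 - D / 2) * (4 * Real.exp (D * L / 2 + Real.log 3)) :=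
          mul_le_mul_of_nonneg_left (mul_le_mul_of_nonneg_left (Real.exp_le_exp.2 hNle)
            (by norm_num)) (by positivity)
      _ = Y := by
          rw [hκ₂, hBD, hY, Real.exp_add (D * L / 2), Real.exp_log three_pos, Real.exp_sub,
            ← hexpL]
          field_simp
          ring
  set Z1 : ℝ := Y / (6 * 2 ^ M) with hZ1def
  set Z2 : ℝ := Y / (4 * 3 ^ N) with hZ2def
  have hZ1Z : Z₀ ≤ Z1 := ((le_max_left _ _).trans h1).trans hZ1
  have hZ2Z : Z₀ ≤ Z2 := ((le_max_left _ _).trans h2).trans hZ2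
  have hZ1c : 2 ≤ c₁ * Z1 := by
    have := ((le_max_right _ _).trans h1).trans hZ1
    rw [div_le_iff₀ hc₁] at this
    linarith only [this]
  have hZ2c : 2 ≤ c₁ * Z2 := by
    have := ((le_max_right _ _).trans h2).trans hZ2
    rw [div_le_iff₀ hc₁] at this
    linarith only [this]
  have hY1 : Z1 * (6 * 2 ^ M) = Y := by rw [hZ1def]; field_simp
  have hY2 : Z2 * (4 * 3 ^ N) = Y := by rw [hZ2def]; field_simp
  have hY1' : 6 * 2 ^ M ≤ Y := by
    rw [← hY1]
    exact le_mul_of_one_le_left (by positivity) (hZ₀.trans hZ1Z)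
  have hY2' : 4 * 3 ^ N ≤ Y := by
    rw [← hY2]
    exact le_mul_of_one_le_left (by positivity) (hZ₀.trans hZ2Z)
  have h2M1 : (1 : ℝ) ≤ 2 ^ M := one_le_pow₀ one_le_two
  have h3N1 : (1 : ℝ) ≤ 3 ^ N := one_le_pow₀ (by norm_num)
  have hY1 : 1 ≤ Y := by linarith only [hY1', h2M1]
  -- the two boxes
  obtain ⟨T₁, hT₁0, hT₁w, hT₁c⟩ := hbox Z1 hZ1Z
  obtain ⟨T₂, hT₂0, hT₂w, hT₂c⟩ := hbox Z2 hZ2Z
  set P : Finset (𝓞 K) := (T₁.image fun s' => 1 + 3 * s').filter (fun s => s ≠ 0) with hP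
  set Q : Finset (𝓞 K) := (T₂.image fun s' => 1 + 2 * s').filter (fun s => s ≠ 0) with hQ
  have hw3 : ∀ w : InfinitePlace K, w (3 : K) = 3 := by
    intro w
    have := InfinitePlace.map_natCast w 3
    simpa using this
  have hPmem : ∀ s ∈ P, s ≠ 0 ∧ (∃ s' : 𝓞 K, s = 1 + 3 * s') ∧
      ∀ w : InfinitePlace K, 2 ^ M * w (s : K) ≤ Y := by
    intro s hs
    obtain ⟨h4, h5⟩ := Finset.mem_filter.1 hs
    obtain ⟨s', hs', rfl⟩ := Finset.mem_image.1 h4
    refine ⟨h5, ⟨s', rfl⟩, fun w => ?_⟩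
    have e1 : ((1 + 3 * s' : 𝓞 K) : K) = 1 + 3 * (s' : K) := by push_cast; rfl
    rw [e1]
    have e2 : w (1 + 3 * (s' : K)) ≤ 1 + 3 * Z1 := by
      refine (w_add_le w _ _).trans ?_
      rw [map_one, map_mul, hw3]
      have := hT₁w s' hs' w
      linarith only [this]
    calc 2 ^ M * w (1 + 3 * (s' : K)) ≤ 2 ^ M * (1 + 3 * Z1) :=
          mul_le_mul_of_nonneg_left e2 h2Mpos.le
      _ = 2 ^ M + Z1 * (6 * 2 ^ M) / 2 := by ring
      _ = 2 ^ M + Y / 2 := by rw [hZ1def, div_mul_cancel₀ _ (by positivity)]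
      _ ≤ Y := by linarith only [hY1', h2M1]
  have hQmem : ∀ t ∈ Q, t ≠ 0 ∧ (∃ t' : 𝓞 K, t = 1 + 2 * t') ∧
      ∀ w : InfinitePlace K, 3 ^ N * w (t : K) ≤ Y := by
    intro s hs
    obtain ⟨h4, h5⟩ := Finset.mem_filter.1 hs
    obtain ⟨s', hs', rfl⟩ := Finset.mem_image.1 h4
    refine ⟨h5, ⟨s', rfl⟩, fun w => ?_⟩
    have e1 : ((1 + 2 * s' : 𝓞 K) : K) = 1 + 2 * (s' : K) := by push_cast; rfl
    rw [e1]
    have e2 : w (1 + 2 * (s' : K)) ≤ 1 + 2 * Z2 := by
      refine (w_add_le w _ _).trans ?_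
      rw [map_one, map_mul, w_two]
      have := hT₂w s' hs' w
      linarith only [this]
    calc 3 ^ N * w (1 + 2 * (s' : K)) ≤ 3 ^ N * (1 + 2 * Z2) :=
          mul_le_mul_of_nonneg_left e2 h3Npos.le
      _ = 3 ^ N + Z2 * (4 * 3 ^ N) / 2 := by ring
      _ = 3 ^ N + Y / 2 := by rw [hZ2def, div_mul_cancel₀ _ (by positivity)]
      _ ≤ Y := by linarith only [hY2', h3N1]
  have hPcard : (c₁ * κ₁ * B ^ (1 - D / 2)) ^ d / 2 ≤ (P.card : ℝ) := by
    refine le_trans ?_ (lvl_card 3 (by norm_num) T₁ d hd1 (c₁ * Z1) hZ1c hT₁c)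
    have e1 : c₁ * κ₁ * B ^ (1 - D / 2) ≤ c₁ * Z1 := by
      rw [mul_assoc]
      exact mul_le_mul_of_nonneg_left hZ1 hc₁.le
    have e2 := pow_le_pow_left₀ (by positivity) e1 d
    linarith only [e2]
  have hQcard : (c₁ * κ₂ * B ^ (1 - D / 2)) ^ d / 2 ≤ (Q.card : ℝ) := by
    refine le_trans ?_ (lvl_card 2 (by norm_num) T₂ d hd1 (c₁ * Z2) hZ2c hT₂c)
    have e1 : c₁ * κ₂ * B ^ (1 - D / 2) ≤ c₁ * Z2 := by
      rw [mul_assoc]
      exact mul_le_mul_of_nonneg_left hZ2 hc₁.le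
    have e2 := pow_le_pow_left₀ (by positivity) e1 d
    linarith only [e2]
  have hPwB : ∀ s ∈ P, ∀ w : InfinitePlace K, w (s : K) ≤ B := by
    intro s hs w
    refine le_trans ?_ (((hPmem s hs).2.2 w).trans hYB)
    exact le_mul_of_one_le_left (apply_nonneg w _) h2M1
  have hQwB : ∀ t ∈ Q, ∀ w : InfinitePlace K, w (t : K) ≤ B := by
    intro t ht w
    refine le_trans ?_ (((hQmem t ht).2.2 w).trans hYB)
    exact le_mul_of_one_le_left (apply_nonneg w _) h3N1
  have hRat := hratio L hL0 P Q (fun s hs => (hPmem s hs).1) (fun t ht => (hQmem t ht).1)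
    (fun s hs => (logHeight_integral_le s B hB1 fun w => hPwB s hs w).trans
      (mul_le_mul_of_nonneg_left (by linarith only [hL0]) (Nat.cast_nonneg _)))
    (fun t ht => (logHeight_integral_le t B hB1 fun w => hQwB t ht w).trans
      (mul_le_mul_of_nonneg_left (by linarith only [hL0]) (Nat.cast_nonneg _)))
  obtain ⟨X, hX1, hX2, hX3, hX4⟩ := select_points (P ×ˢ Q)
    (fun p : 𝓞 K × 𝓞 K => pt (α l0) (α l1) 0 (c3 N p.2) (c2 M p.1))
    (fun p : 𝓞 K × 𝓞 K => (p.2 : K) / (p.1 : K))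
    (by
      rintro ⟨s, t⟩ hx ⟨s', t'⟩ hy hne
      rw [Finset.mem_product] at hx hy
      have hs : (s : K) ≠ 0 := by
        have := (hPmem s hx.1).1
        exact_mod_cast this
      have hs' : (s' : K) ≠ 0 := by
        have := (hPmem s' hy.1).1
        exact_mod_cast this
      rw [wedge_pt_pt]
      refine mul_ne_zero (mul_ne_zero (pow_ne_zero _ two_ne_zero) ?_) hab
      intro h4
      apply hne
      simp only
      rw [c3_coe, c2_coe, c3_coe, c2_coe] at h4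
      rw [div_eq_div_iff hs hs']
      have h5 : ((3 : ℕ) : K) ^ N * ((2 : ℕ) : K) ^ M ≠ 0 :=
        mul_ne_zero (pow_ne_zero _ (by norm_num)) (pow_ne_zero _ (by norm_num))
      refine mul_left_cancel₀ h5 ?_
      linear_combination h4)
    α hα0
  have hXht : ∀ x ∈ X, ht x ≤ L := by
    intro x hx
    obtain ⟨⟨s, t⟩, hst, rfl⟩ := hX1 x hx
    rw [Finset.mem_product] at hst
    rw [← hlogY]
    refine hht 0 (c3 N t) (c2 M s) Y hY1
      (mul_ne_zero (pow_ne_zero _ (by norm_num)) (hQmem t hst.2).1)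
      (mul_ne_zero (pow_ne_zero _ (by norm_num)) (hPmem s hst.1).1) ?_ ?_
    · intro w
      rw [c3_coe, map_mul, map_pow, InfinitePlace.map_natCast]
      exact_mod_cast (hQmem t hst.2).2.2 w
    · intro w
      rw [c2_coe, map_mul, map_pow, InfinitePlace.map_natCast, pow_zero, one_mul]
      exact_mod_cast (hPmem s hst.1).2.2 w
  refine ⟨X, hX2, hX3, ?_, ?_, ?_⟩
  · intro x hx
    rw [← hexpL]
    exact Real.exp_le_exp.2 (hXht x hx)
  · intro x hx
    have h4 := hXht x hx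
    have h5 := hX2 x hx
    obtain ⟨⟨s, t⟩, hst, rfl⟩ := hX1 x hx
    rw [Finset.mem_product] at hst
    obtain ⟨h6, ⟨s', hs'⟩, h7⟩ := hPmem s hst.1
    obtain ⟨h6', ⟨t', ht'⟩, h7'⟩ := hQmem t hst.2
    have h8 := htr M N s t s' t' hs' ht' h6 h6' h5
    have h9 : D * ht (pt (α l0) (α l1) 0 (c3 N t) (c2 M s)) ≤ D * L :=
      mul_le_mul_of_nonneg_left h4 hD0
    have h10 := neg_abs_le c
    simp only
    linarith only [h8, h9, h10, hMge, hNge]
  · have h4 := h3 (P.card : ℝ) (Q.card : ℝ)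
      ((((P ×ˢ Q).image (fun p : 𝓞 K × 𝓞 K => (p.2 : K) / (p.1 : K))).card : ℕ) : ℝ) hPcard
      hQcard (by
        have e1 : B ^ (η₀ / 2) = Real.exp (η₀ / 2 * L) := by
          rw [Real.rpow_def_of_pos hBpos, ← hL]; congr 1; ring
        rw [e1]
        exact hRat)
    have h5 : ((((P ×ˢ Q).image (fun p : 𝓞 K × 𝓞 K => (p.2 : K) / (p.1 : K))).card : ℕ) : ℝ) ≤
        (X.card : ℝ) + q := by exact_mod_cast hX4
    have h6 : B ^ ((2 - D) * (d : ℝ) - η) ≤ B ^ ((2 - D) * (d : ℝ) - η₀) :=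
      Real.rpow_le_rpow_of_exponent_le hB1 (by
        have := min_le_left η ((2 - D) * (d : ℝ))
        linarith only [this, hη₀])
    linarith only [h4, h5, h6]

end Pool.Agent.Lib.MP_4d5ce1_nt
end
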